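import Mathlib

/-!
Polar coordinates in the first `a` of `a + k` variables, with `r = exp t`.
-/

set_option autoImplicit false

open MeasureTheory Set Filter Topology
open scoped ENNReal

namespace Pool.Agent.L7h76.RA

/-- the radial integral in the variable `t = log r` -/
lemma lint_Ioi_exp (n : ℕ) (H : ℝ → ℝ≥0∞) (_hH : Measurable H) :
    ∫⁻ r : Ioi (0 : ℝ), H r ∂(Measure.volumeIoiPow n) =
      ∫⁻ t : ℝ, ENNReal.ofReal (Real.exp ((n + 1) * t)) * H (Real.exp t) := by
  have h1 : ∫⁻ r : Ioi (0 : ℝ), H r ∂(Measure.volumeIoiPow n) =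
      ∫⁻ r in Ioi (0 : ℝ), ENNReal.ofReal (r ^ n) * H r := by
    unfold Measure.volumeIoiPow
    rw [lintegral_withDensity_eq_lintegral_mul _ (by fun_prop) (by fun_prop),
      ← lintegral_subtype_comap measurableSet_Ioi (fun r => ENNReal.ofReal (r ^ n) * H r)]
    rfl
  rw [h1]
  have h2 : Ioi (0 : ℝ) = Real.exp '' univ := by
    rw [image_univ, Real.range_exp]
  rw [h2, lintegral_image_eq_lintegral_abs_deriv_mul (f' := Real.exp) MeasurableSet.univ
    (fun x _ => (Real.hasDerivAt_exp x).hasDerivWithinAt) Real.exp_injective.injOn,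
    Measure.restrict_univ]
  apply lintegral_congr
  intro t
  rw [abs_of_pos (Real.exp_pos t), ← mul_assoc, ← ENNReal.ofReal_mul (Real.exp_pos t).le]
  congr 2
  rw [← Real.exp_nat_mul, ← Real.exp_add]
  congr 1
  ring

/-- polar coordinates in Euclidean space -/
lemma lint_polar {a : ℕ} (ha : 1 ≤ a) (h : EuclideanSpace ℝ (Fin a) → ℝ≥0∞) (hh : Measurable h) :
    ∫⁻ x, h x = ∫⁻ ω : Metric.sphere (0 : EuclideanSpace ℝ (Fin a)) 1,
      (∫⁻ t : ℝ, ENNReal.ofReal (Real.exp (a * t)) *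
        h (Real.exp t • (ω : EuclideanSpace ℝ (Fin a))))
      ∂(volume : Measure (EuclideanSpace ℝ (Fin a))).toSphere := by
  have : Nontrivial (EuclideanSpace ℝ (Fin a)) := by
    have : Nonempty (Fin a) := ⟨⟨0, ha⟩⟩
    infer_instance
  set μ : Measure (EuclideanSpace ℝ (Fin a)) := volume with hμ
  have hd : Module.finrank ℝ (EuclideanSpace ℝ (Fin a)) = a := finrank_euclideanSpace_fin
  have h1 : ∫⁻ x, h x ∂μ = ∫⁻ x : ({(0 : EuclideanSpace ℝ (Fin a))}ᶜ : Set _), h x ∂(μ.comap (↑)) := by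
    rw [lintegral_subtype_comap (measurableSet_singleton _).compl h,
      restrict_compl_singleton]
  have h2 := μ.measurePreserving_homeomorphUnitSphereProd.lintegral_comp_emb
    (Homeomorph.measurableEmbedding _) (fun p => h (p.2.1 • (p.1 : EuclideanSpace ℝ (Fin a))))
  rw [h1]
  have h3 : ∀ x : ({(0 : EuclideanSpace ℝ (Fin a))}ᶜ : Set _),
      h ((homeomorphUnitSphereProd (EuclideanSpace ℝ (Fin a)) x).2.1 •
        ((homeomorphUnitSphereProd (EuclideanSpace ℝ (Fin a)) x).1 :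
          EuclideanSpace ℝ (Fin a))) = h x := by
    intro x
    have h4 : (homeomorphUnitSphereProd (EuclideanSpace ℝ (Fin a)) x).2.1 •
        ((homeomorphUnitSphereProd (EuclideanSpace ℝ (Fin a)) x).1 :
          EuclideanSpace ℝ (Fin a)) = x := by
      have h5 := congrArg Subtype.val
        ((homeomorphUnitSphereProd (EuclideanSpace ℝ (Fin a))).symm_apply_apply x)
      rwa [homeomorphUnitSphereProd_symm_apply_coe] at h5
    rw [h4]
  simp only [h3] at h2
  rw [h2, hd]
  have hm : Measurable fun p : Metric.sphere (0 : EuclideanSpace ℝ (Fin a)) 1 × Ioi (0 : ℝ) =>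
      h (p.2.1 • (p.1 : EuclideanSpace ℝ (Fin a))) := by
    apply hh.comp
    fun_prop
  rw [lintegral_prod _ hm.aemeasurable]
  apply lintegral_congr
  intro ω
  have h6 := lint_Ioi_exp (a - 1) (fun r => h (r • (ω : EuclideanSpace ℝ (Fin a))))
    (hh.comp (by fun_prop))
  rw [h6]
  apply lintegral_congr
  intro t
  congr 3
  have : ((a - 1 : ℕ) : ℝ) + 1 = a := by
    rw [Nat.cast_sub ha]; simp
  rw [this]

/-- joining the two groups of variables -/
lemma lint_join {a k : ℕ} (H : (Fin (a + k) → ℝ) → ℝ≥0∞) (hH : Measurable H) :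
    ∫⁻ z, H z = ∫⁻ x : Fin a → ℝ, ∫⁻ y : Fin k → ℝ, H (Fin.append x y) := by
  have e2 := volume_measurePreserving_piCongrLeft (fun _ : Fin (a + k) => ℝ)
    (finSumFinEquiv (m := a) (n := k))
  have e1 := volume_measurePreserving_sumPiEquivProdPi (fun _ : Fin a ⊕ Fin k => ℝ)
  rw [← e2.lintegral_comp hH]
  have h1 : Measurable fun u : (Fin a ⊕ Fin k) → ℝ =>
      H ((MeasurableEquiv.piCongrLeft (fun _ : Fin (a + k) => ℝ) finSumFinEquiv) u) :=
    hH.comp (MeasurableEquiv.measurable _)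
  rw [← (e1.symm _).lintegral_comp h1]
  have h2 : ∀ p : (Fin a → ℝ) × (Fin k → ℝ),
      (MeasurableEquiv.piCongrLeft (fun _ : Fin (a + k) => ℝ) finSumFinEquiv)
        ((MeasurableEquiv.sumPiEquivProdPi fun _ : Fin a ⊕ Fin k => ℝ).symm p) =
        Fin.append p.1 p.2 := by
    intro p
    funext j
    obtain ⟨i, rfl⟩ := (finSumFinEquiv (m := a) (n := k)).surjective j
    rw [MeasurableEquiv.coe_piCongrLeft, Equiv.piCongrLeft_apply_apply]
    rcases i with i | i
    · rw [finSumFinEquiv_apply_left, Fin.append_left]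
      rfl
    · rw [finSumFinEquiv_apply_right, Fin.append_right]
      rfl
  simp only [h2]
  have h3 : Measurable fun p : (Fin a → ℝ) × (Fin k → ℝ) => H (Fin.append p.1 p.2) := by
    have : (fun p : (Fin a → ℝ) × (Fin k → ℝ) => H (Fin.append p.1 p.2)) =
        fun p => H ((MeasurableEquiv.piCongrLeft (fun _ : Fin (a + k) => ℝ) finSumFinEquiv)
        ((MeasurableEquiv.sumPiEquivProdPi fun _ : Fin a ⊕ Fin k => ℝ).symm p)) := by
      funext p
      rw [h2]
    rw [this]
    exact h1.comp (MeasurableEquiv.measurable _)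
  have h4 : (volume : Measure ((Fin a → ℝ) × (Fin k → ℝ))) = volume.prod volume := rfl
  change ∫⁻ p : (Fin a → ℝ) × (Fin k → ℝ), H (Fin.append p.1 p.2) = _
  rw [h4, lintegral_prod _ h3.aemeasurable]

/-- splitting off the first of `k + 1` variables -/
lemma lint_cons {k : ℕ} (H : (Fin (k + 1) → ℝ) → ℝ≥0∞) (hH : Measurable H) :
    ∫⁻ s, H s = ∫⁻ y : Fin k → ℝ, ∫⁻ t : ℝ, H (Fin.cons t y) := by
  have e1 := volume_preserving_piFinSuccAbove (fun _ : Fin (k + 1) => ℝ) 0
  rw [← (e1.symm _).lintegral_comp hH]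
  have h2 : ∀ p : ℝ × (Fin k → ℝ),
      (MeasurableEquiv.piFinSuccAbove (fun _ : Fin (k + 1) => ℝ) 0).symm p =
        (Fin.cons p.1 p.2 : Fin (k + 1) → ℝ) := by
    intro p
    funext j
    refine Fin.cases ?_ (fun i => ?_) j
    · simp [MeasurableEquiv.piFinSuccAbove]
    · simp [MeasurableEquiv.piFinSuccAbove]
  have h3 : Measurable fun p : ℝ × (Fin k → ℝ) => H (Fin.cons p.1 p.2) := by
    have := hH.comp (MeasurableEquiv.piFinSuccAbove (fun _ : Fin (k + 1) => ℝ) 0).symm.measurable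
    have h5 : (fun p : ℝ × (Fin k → ℝ) => H (Fin.cons p.1 p.2)) =
        H ∘ (MeasurableEquiv.piFinSuccAbove (fun _ : Fin (k + 1) => ℝ) 0).symm := by
      funext p
      rw [Function.comp_apply, h2]
    rw [h5]
    exact this
  simp only [h2]
  have h4 : (volume : Measure (ℝ × (Fin k → ℝ))) = volume.prod volume := rfl
  rw [h4, lintegral_prod_symm _ h3.aemeasurable]

/-- the map `(ω, s) ↦ (exp (s 0) ω, y)` -/
noncomputable def Φ {a k : ℕ} (p : Metric.sphere (0 : EuclideanSpace ℝ (Fin a)) 1 × (Fin (k + 1) → ℝ)) :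
    Fin (a + k) → ℝ :=
  Fin.append (fun i => Real.exp (p.2 0) * (p.1 : EuclideanSpace ℝ (Fin a)) i) fun j => p.2 j.succ

lemma Φ_left {a k : ℕ} (p : Metric.sphere (0 : EuclideanSpace ℝ (Fin a)) 1 × (Fin (k + 1) → ℝ))
    (i : Fin a) : Φ p (Fin.castAdd k i) =
      Real.exp (p.2 0) * (p.1 : EuclideanSpace ℝ (Fin a)) i := by
  rw [Φ, Fin.append_left]

lemma Φ_right {a k : ℕ} (p : Metric.sphere (0 : EuclideanSpace ℝ (Fin a)) 1 × (Fin (k + 1) → ℝ))
    (j : Fin k) : Φ p (Fin.natAdd a j) = p.2 j.succ := by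
  rw [Φ, Fin.append_right]

lemma Φ_meas {a k : ℕ} : Measurable (Φ : Metric.sphere (0 : EuclideanSpace ℝ (Fin a)) 1 ×
    (Fin (k + 1) → ℝ) → Fin (a + k) → ℝ) := by
  rw [measurable_pi_iff]
  intro j
  refine Fin.addCases (fun i => ?_) (fun i => ?_) j
  · simp only [Φ_left]
    fun_prop
  · simp only [Φ_right]
    fun_prop

/-- the weight -/
noncomputable def wt {k : ℕ} (a : ℕ) (s : Fin (k + 1) → ℝ) : ℝ≥0∞ :=
  ENNReal.ofReal (Real.exp (a * s 0))

lemma wt_meas {k : ℕ} (a : ℕ) : Measurable (wt a : (Fin (k + 1) → ℝ) → ℝ≥0∞) := by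
  unfold wt
  fun_prop

lemma key {a k : ℕ} (ha : 1 ≤ a) (H : (Fin (a + k) → ℝ) → ℝ≥0∞) (hH : Measurable H) :
    ∫⁻ z, H z = ∫⁻ p, H (Φ p) ∂((volume : Measure (EuclideanSpace ℝ (Fin a))).toSphere.prod
      ((volume : Measure (Fin (k + 1) → ℝ)).withDensity (wt a))) := by
  have hΦ := Φ_meas (a := a) (k := k)
  have hc : Measurable fun p : (Fin a → ℝ) × (Fin k → ℝ) => H (Fin.append p.1 p.2) := by
    apply hH.comp
    rw [measurable_pi_iff]
    intro j
    refine Fin.addCases (fun i => ?_) (fun i => ?_) j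
    · simp only [Fin.append_left]
      fun_prop
    · simp only [Fin.append_right]
      fun_prop
  rw [lint_join H hH]
  -- pass to Euclidean space
  have h1 : ∫⁻ x : Fin a → ℝ, ∫⁻ y : Fin k → ℝ, H (Fin.append x y) =
      ∫⁻ x : EuclideanSpace ℝ (Fin a), ∫⁻ y : Fin k → ℝ, H (Fin.append (fun i => x i) y) := by
    have hm : Measurable fun x : Fin a → ℝ => ∫⁻ y : Fin k → ℝ, H (Fin.append x y) :=
      hc.lintegral_prod_right'
    rw [← (PiLp.volume_preserving_ofLp (Fin a)).lintegral_comp hm]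
  have hc2 : Measurable fun p : EuclideanSpace ℝ (Fin a) × (Fin k → ℝ) =>
      H (Fin.append (fun i => p.1 i) p.2) := by
    have h3 : Measurable fun p : EuclideanSpace ℝ (Fin a) × (Fin k → ℝ) =>
        ((fun i => p.1 i : Fin a → ℝ), p.2) := by fun_prop
    exact hc.comp h3
  have hHm : Measurable fun p : Metric.sphere (0 : EuclideanSpace ℝ (Fin a)) 1 ×
      (Fin (k + 1) → ℝ) => H (Φ p) := hH.comp hΦ
  rw [h1, lint_polar ha _ hc2.lintegral_prod_right', lintegral_prod _ hHm.aemeasurable]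
  apply lintegral_congr
  intro ω
  have hm3 : Measurable fun s : Fin (k + 1) → ℝ => H (Φ (ω, s)) :=
    (hH.comp hΦ).comp (by fun_prop)
  rw [lintegral_withDensity_eq_lintegral_mul _ (wt_meas a) hm3,
    lint_cons _ ((wt_meas a).mul hm3)]
  have hm4 : Measurable fun p : ℝ × (Fin k → ℝ) => ENNReal.ofReal (Real.exp (a * p.1)) *
      H (Fin.append (fun i => (Real.exp p.1 • (ω : EuclideanSpace ℝ (Fin a))) i) p.2) := by
    apply Measurable.mul (by fun_prop)
    have h3 : Measurable fun p : ℝ × (Fin k → ℝ) =>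
        ((Real.exp p.1 • (ω : EuclideanSpace ℝ (Fin a))), p.2) := by fun_prop
    exact hc2.comp h3
  have h5 : ∫⁻ t : ℝ, ENNReal.ofReal (Real.exp (a * t)) * ∫⁻ y : Fin k → ℝ,
      H (Fin.append (fun i => (Real.exp t • (ω : EuclideanSpace ℝ (Fin a))) i) y) =
      ∫⁻ t : ℝ, ∫⁻ y : Fin k → ℝ, ENNReal.ofReal (Real.exp (a * t)) *
      H (Fin.append (fun i => (Real.exp t • (ω : EuclideanSpace ℝ (Fin a))) i) y) := by
    apply lintegral_congr
    intro t
    rw [lintegral_const_mul']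
    exact ENNReal.ofReal_ne_top
  rw [h5, lintegral_lintegral_swap hm4.aemeasurable]
  rfl

/-- the volume in polar coordinates -/
lemma map_Φ {a k : ℕ} (ha : 1 ≤ a) : Measure.map (Φ (a := a) (k := k))
    ((volume : Measure (EuclideanSpace ℝ (Fin a))).toSphere.prod
      ((volume : Measure (Fin (k + 1) → ℝ)).withDensity (wt a))) = volume := by
  apply Measure.ext_of_lintegral
  intro H hH
  rw [lintegral_map hH Φ_meas, ← key ha H hH]

end Pool.Agent.L7h76.RA
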