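import Mathlib
import Pool.Agent.L7h98.RA.Stm
import Pool.Agent.L7h76.RA.PolA

/-!
Polar coordinates for functions of `(|x|², y)` (parts `S_POL0`, `S_POL` of the project RA).
-/

set_option autoImplicit false

open MeasureTheory Set Filter Topology
open scoped ENNReal

namespace Pool.Agent.L7h76.RA

open Pool.Agent.L7h98.RA Pool.Agent.R117.RL Pool.Agent.N537.RS Pool.Agent.N537.RS.HS

variable {a k : ℕ}

lemma QQ_Φ (p : Metric.sphere (0 : EuclideanSpace ℝ (Fin a)) 1 × (Fin (k + 1) → ℝ)) :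
    QQ (Φ p) = ee p.2 := by
  unfold QQ ee
  simp only [Φ_left, Φ_right]
  congr 1
  have h1 : ∑ i : Fin a, (p.1 : EuclideanSpace ℝ (Fin a)) i ^ 2 = 1 := by
    have h2 := EuclideanSpace.norm_sq_eq (p.1 : EuclideanSpace ℝ (Fin a))
    have h3 : ‖(p.1 : EuclideanSpace ℝ (Fin a))‖ = 1 := by
      have := p.1.2
      rwa [mem_sphere_zero_iff_norm] at this
    rw [h3] at h2
    simp only [Real.norm_eq_abs, sq_abs] at h2
    rw [← h2]
    norm_num
  simp only [mul_pow]
  rw [← Finset.mul_sum, h1, mul_one, ← Real.exp_nat_mul]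
  norm_num

lemma xx_Φ (p : Metric.sphere (0 : EuclideanSpace ℝ (Fin a)) 1 × (Fin (k + 1) → ℝ)) :
    (xx (Φ p) : EuclideanSpace ℝ (Fin a)) =
      Real.exp (p.2 0) • (p.1 : EuclideanSpace ℝ (Fin a)) := by
  ext i
  simp only [xx, Φ_left]
  rfl

lemma evl_hom {n : ℕ} {p : MvPolynomial (Fin a) ℝ} (hp : p.IsHomogeneous n) (c : ℝ)
    (x : EuclideanSpace ℝ (Fin a)) : evl p (c • x) = c ^ n * evl p x := by
  unfold evl
  rw [MvPolynomial.eval_eq, MvPolynomial.eval_eq, Finset.mul_sum]
  apply Finset.sum_congr rfl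
  intro d hd
  have h1 : ∑ i ∈ d.support, d i = n := by
    have h2 := hp (MvPolynomial.mem_support_iff.1 hd)
    rw [Finsupp.weight_apply] at h2
    simpa [Finsupp.sum] using h2
  have h3 : ∏ i ∈ d.support, (c • x) i ^ d i = c ^ n * ∏ i ∈ d.support, x i ^ d i := by
    rw [← h1, ← Finset.prod_pow_eq_pow_sum, ← Finset.prod_mul_distrib]
    apply Finset.prod_congr rfl
    intro i _
    rw [← mul_pow]
    rfl
  rw [h3]
  ring

lemma QQ_meas : Measurable (QQ : (Fin (a + k) → ℝ) → Fin (k + 1) → ℝ) := by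
  rw [measurable_pi_iff]
  intro j
  refine Fin.cases ?_ (fun i => ?_) j
  · simp only [QQ, Fin.cons_zero]
    fun_prop
  · simp only [QQ, Fin.cons_succ]
    fun_prop

lemma ee_meas : Measurable (ee : (Fin (k + 1) → ℝ) → Fin (k + 1) → ℝ) := by
  rw [measurable_pi_iff]
  intro j
  refine Fin.cases ?_ (fun i => ?_) j
  · simp only [ee, Fin.cons_zero]
    fun_prop
  · simp only [ee, Fin.cons_succ]
    fun_prop

lemma xx_meas : Measurable (xx : (Fin (a + k) → ℝ) → EuclideanSpace ℝ (Fin a)) := by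
  unfold xx
  fun_prop

theorem s_POL0 : S_POL0 := by
  intro a k ha F hF
  have h1 := key (k := k) ha (fun z => F (QQ z)) (hF.comp QQ_meas)
  rw [h1]
  simp only [QQ_Φ]
  have hm : Measurable fun s : Fin (k + 1) → ℝ => F (ee s) := hF.comp ee_meas
  have hm2 : Measurable fun p : Metric.sphere (0 : EuclideanSpace ℝ (Fin a)) 1 ×
      (Fin (k + 1) → ℝ) => F (ee p.2) := hm.comp measurable_snd
  rw [lintegral_prod _ hm2.aemeasurable]
  simp only [lintegral_const]
  rw [mul_comm, lintegral_withDensity_eq_lintegral_mul _ (wt_meas a) hm,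
    Measure.toSphere_apply_univ]
  congr 1
  · unfold sg om
    rw [finrank_euclideanSpace_fin, ENNReal.ofReal_mul (by positivity), ENNReal.ofReal_natCast,
      ENNReal.ofReal_toReal measure_ball_lt_top.ne]

theorem s_POL : S_POL := by
  intro a k ha n p hp F hF hint
  set ν := (volume : Measure (EuclideanSpace ℝ (Fin a))).toSphere.prod
      ((volume : Measure (Fin (k + 1) → ℝ)).withDensity (wt a)) with hν
  have hmap : Measure.map (Φ (a := a) (k := k)) ν = volume := map_Φ ha
  have hfm : Measurable fun z : Fin (a + k) → ℝ => F (QQ z) * evl p (xx z) :=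
    (hF.comp QQ_meas).mul ((evl_contDiff p).continuous.measurable.comp xx_meas)
  have hcomp : (fun q => F (QQ (Φ q)) * evl p (xx (Φ q))) =
      fun q : Metric.sphere (0 : EuclideanSpace ℝ (Fin a)) 1 × (Fin (k + 1) → ℝ) =>
        evl p (q.1 : EuclideanSpace ℝ (Fin a)) *
          (Real.exp (q.2 0) ^ n * F (ee q.2)) := by
    funext q
    rw [QQ_Φ, xx_Φ, evl_hom hp]
    ring
  have hfin : ∀ᵐ s : Fin (k + 1) → ℝ, wt a s < ∞ :=
    Filter.Eventually.of_forall fun s => ENNReal.ofReal_lt_top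
  have hwt : ∀ s : Fin (k + 1) → ℝ, (wt a s).toReal = Real.exp (a * s 0) := fun s =>
    ENNReal.toReal_ofReal (Real.exp_pos _).le
  have hexp : ∀ s : Fin (k + 1) → ℝ, (wt a s).toReal • (Real.exp (s 0) ^ n * F (ee s)) =
      Real.exp ((n + a) * s 0) * F (ee s) := by
    intro s
    rw [hwt, smul_eq_mul, ← mul_assoc, ← Real.exp_nat_mul, ← Real.exp_add]
    congr 2
    ring
  have i1 : Integrable (fun s : Fin (k + 1) → ℝ => Real.exp (s 0) ^ n * F (ee s))
      ((volume : Measure (Fin (k + 1) → ℝ)).withDensity (wt a)) := by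
    rw [integrable_withDensity_iff_integrable_smul' (wt_meas a) hfin]
    simp only [hexp]
    exact hint
  have i2 : Integrable (fun ω : Metric.sphere (0 : EuclideanSpace ℝ (Fin a)) 1 =>
      evl p (ω : EuclideanSpace ℝ (Fin a)))
      (volume : Measure (EuclideanSpace ℝ (Fin a))).toSphere := by
    have hc : Continuous fun ω : Metric.sphere (0 : EuclideanSpace ℝ (Fin a)) 1 =>
        evl p (ω : EuclideanSpace ℝ (Fin a)) :=
      (evl_contDiff p).continuous.comp continuous_subtype_val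
    exact hc.integrable_of_hasCompactSupport (HasCompactSupport.of_compactSpace _)
  have hmeas : AEStronglyMeasurable (fun z : Fin (a + k) → ℝ => F (QQ z) * evl p (xx z))
      (Measure.map (Φ (a := a) (k := k)) ν) := hfm.aestronglyMeasurable
  have hf : Integrable (fun z : Fin (a + k) → ℝ => F (QQ z) * evl p (xx z)) := by
    rw [← hmap, integrable_map_measure hmeas Φ_meas.aemeasurable]
    have : ((fun z : Fin (a + k) → ℝ => F (QQ z) * evl p (xx z)) ∘ Φ) =
        fun q => F (QQ (Φ q)) * evl p (xx (Φ q)) := rfl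
    rw [this, hcomp]
    exact i2.mul_prod i1
  refine ⟨hf, ?_⟩
  rw [← hmap, integral_map Φ_meas.aemeasurable hmeas]
  simp only [hcomp]
  rw [hν, integral_prod_mul (fun ω : Metric.sphere (0 : EuclideanSpace ℝ (Fin a)) 1 =>
    evl p (ω : EuclideanSpace ℝ (Fin a))) (fun s : Fin (k + 1) → ℝ =>
      Real.exp (s 0) ^ n * F (ee s)),
    integral_withDensity_eq_integral_toReal_smul (wt_meas a) hfin]
  simp only [hexp]
  rfl

end Pool.Agent.L7h76.RA
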