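import Mathlib
import Pool.Agent.L7h98.RA.Stm
import Pool.Agent.L7h76.RA.Pol

/-!
The divergence theorem on the sphere for polynomials and the products of gradients of spherical
harmonics (parts `S_DIV`, `S_GRAD` of the project RA).
-/

set_option autoImplicit false

open MeasureTheory Set Filter Topology
open scoped ENNReal

namespace Pool.Agent.L7h76.RA

open Pool.Agent.L7h98.RA Pool.Agent.R117.RL Pool.Agent.N537.RS Pool.Agent.N537.RS.HS

/-! ### linearity of `cS` -/

section

variable {a : ℕ}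

lemma cS_int (p : MvPolynomial (Fin a) ℝ) :
    Integrable (fun ω : Metric.sphere (0 : EuclideanSpace ℝ (Fin a)) 1 =>
      evl p (ω : EuclideanSpace ℝ (Fin a)))
      (volume : Measure (EuclideanSpace ℝ (Fin a))).toSphere := by
  have hc : Continuous fun ω : Metric.sphere (0 : EuclideanSpace ℝ (Fin a)) 1 =>
      evl p (ω : EuclideanSpace ℝ (Fin a)) :=
    (evl_contDiff p).continuous.comp continuous_subtype_val
  exact hc.integrable_of_hasCompactSupport (HasCompactSupport.of_compactSpace _)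

lemma cS_add (p q : MvPolynomial (Fin a) ℝ) : cS (p + q) = cS p + cS q := by
  unfold cS
  simp only [evl_add]
  exact integral_add (cS_int p) (cS_int q)

lemma cS_smul (c : ℝ) (p : MvPolynomial (Fin a) ℝ) : cS (c • p) = c * cS p := by
  unfold cS
  simp only [evl_smul]
  exact integral_const_mul _ _

lemma cS_zero : cS (0 : MvPolynomial (Fin a) ℝ) = 0 := by
  have := cS_smul 0 (0 : MvPolynomial (Fin a) ℝ)
  simpa using this

lemma cS_sum {ι : Type} (s : Finset ι) (p : ι → MvPolynomial (Fin a) ℝ) :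
    cS (∑ j ∈ s, p j) = ∑ j ∈ s, cS (p j) := by
  classical
  induction s using Finset.induction_on with
  | empty => simp [cS_zero]
  | insert i s hi ih => rw [Finset.sum_insert hi, Finset.sum_insert hi, cS_add, ih]

end

/-! ### derivatives in the variables `z` -/

section

variable {a k : ℕ}

/-- `xx` as a continuous linear map -/
noncomputable def xxL (a k : ℕ) : (Fin (a + k) → ℝ) →L[ℝ] E a :=
  ((EuclideanSpace.equiv (Fin a) ℝ).symm : (Fin a → ℝ) →L[ℝ] E a).comp
    (ContinuousLinearMap.pi fun i => ContinuousLinearMap.proj (Fin.castAdd k i))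

lemma xxL_apply (z : Fin (a + k) → ℝ) : xxL a k z = xx z := rfl

lemma evl_xx_fd (p : MvPolynomial (Fin a) ℝ) (z : Fin (a + k) → ℝ) :
    HasFDerivAt (fun z : Fin (a + k) → ℝ => evl p (xx z))
      ((∑ i, evl (MvPolynomial.pderiv i p) (xx z) • (EuclideanSpace.proj i : E a →L[ℝ] ℝ)).comp
        (xxL a k)) z :=
  (evl_fd p (xx z)).comp z ((xxL a k).hasFDerivAt)

lemma evl_xx_pd (p : MvPolynomial (Fin a) ℝ) (z : Fin (a + k) → ℝ) (i : Fin a) :
    fderiv ℝ (fun z : Fin (a + k) → ℝ => evl p (xx z)) z (Pi.single (Fin.castAdd k i) 1) =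
      evl (MvPolynomial.pderiv i p) (xx z) := by
  rw [(evl_xx_fd p z).fderiv, ContinuousLinearMap.comp_apply, _root_.sum_apply]
  rw [Finset.sum_eq_single i]
  · rw [xxL_apply]
    simp [xx]
  · intro j _ hj
    have h1 : (Pi.single (Fin.castAdd k i) (1 : ℝ) : Fin (a + k) → ℝ) (Fin.castAdd k j) = 0 := by
      rw [Pi.single_apply, if_neg]
      intro h
      exact hj (Fin.castAdd_injective a k h)
    rw [xxL_apply]
    simp [xx, h1]
  · intro h
    exact absurd (Finset.mem_univ i) h

lemma evl_xx_pd' (p : MvPolynomial (Fin a) ℝ) (z : Fin (a + k) → ℝ) (j : Fin k) :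
    fderiv ℝ (fun z : Fin (a + k) → ℝ => evl p (xx z)) z (Pi.single (Fin.natAdd a j) 1) = 0 := by
  rw [(evl_xx_fd p z).fderiv, ContinuousLinearMap.comp_apply, _root_.sum_apply]
  apply Finset.sum_eq_zero
  intro i _
  have h1 : (Pi.single (Fin.natAdd a j) (1 : ℝ) : Fin (a + k) → ℝ) (Fin.castAdd k i) = 0 := by
    rw [Pi.single_apply, if_neg]
    intro h
    have := congrArg Fin.val h
    simp at this
    omega
  rw [xxL_apply]
  simp [xx, h1]

/-- the square of the norm of `x` -/
noncomputable def sq (z : Fin (a + k) → ℝ) : ℝ := ∑ i : Fin a, z (Fin.castAdd k i) ^ 2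

lemma sq_fd (z : Fin (a + k) → ℝ) : HasFDerivAt (sq : (Fin (a + k) → ℝ) → ℝ)
    (∑ i : Fin a, (2 * z (Fin.castAdd k i)) •
      (ContinuousLinearMap.proj (Fin.castAdd k i) : (Fin (a + k) → ℝ) →L[ℝ] ℝ)) z := by
  unfold sq
  apply HasFDerivAt.fun_sum
  intro i _
  have h1 : HasFDerivAt (fun z : Fin (a + k) → ℝ => z (Fin.castAdd k i))
      (ContinuousLinearMap.proj (Fin.castAdd k i) : (Fin (a + k) → ℝ) →L[ℝ] ℝ) z :=
    (ContinuousLinearMap.proj (R := ℝ) (φ := fun _ : Fin (a + k) => ℝ)
      (Fin.castAdd k i)).hasFDerivAt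
  have h2 := h1.pow 2
  simpa using h2

lemma sq_dir (z : Fin (a + k) → ℝ) (i : Fin a) :
    (∑ i : Fin a, (2 * z (Fin.castAdd k i)) •
      (ContinuousLinearMap.proj (Fin.castAdd k i) : (Fin (a + k) → ℝ) →L[ℝ] ℝ))
      (Pi.single (Fin.castAdd k i) 1) = 2 * z (Fin.castAdd k i) := by
  rw [_root_.sum_apply, Finset.sum_eq_single i]
  · simp
  · intro j _ hj
    have h1 : (Pi.single (Fin.castAdd k i) (1 : ℝ) : Fin (a + k) → ℝ) (Fin.castAdd k j) = 0 := by
      rw [Pi.single_apply, if_neg]
      intro h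
      exact hj (Fin.castAdd_injective a k h)
    simp [h1]
  · intro h
    exact absurd (Finset.mem_univ i) h

end

/-! ### a bump function of `t` -/

/-- a smooth bump function with support in `(1, 3)` -/
noncomputable def bmp : ContDiffBump (2 : ℝ) where
  rIn := 1 / 2
  rOut := 1
  rIn_pos := by norm_num
  rIn_lt_rOut := by norm_num

lemma bmp_zero {u : ℝ} (h : u ≤ 1 ∨ 3 ≤ u) : bmp u = 0 := by
  apply bmp.zero_of_le_dist
  change (1 : ℝ) ≤ dist u 2
  rw [Real.dist_eq, le_abs]
  rcases h with h | h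
  · right; linarith
  · left; linarith

lemma bmp_cd : ContDiff ℝ 1 (bmp : ℝ → ℝ) := bmp.contDiff

lemma bmp_der_zero {u : ℝ} (h : u < 1 ∨ 3 < u) : deriv bmp u = 0 := by
  have h1 : (bmp : ℝ → ℝ) =ᶠ[𝓝 u] fun _ => 0 := by
    rcases h with h | h
    · filter_upwards [Iio_mem_nhds h] with v hv
      exact bmp_zero (Or.inl hv.le)
    · filter_upwards [Ioi_mem_nhds h] with v hv
      exact bmp_zero (Or.inr hv.le)
  rw [h1.deriv_eq]
  simp

lemma bmp_der_zero' {u : ℝ} (h : u ≤ 1 ∨ 3 ≤ u) : deriv bmp u = 0 := by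
  have hc : Continuous (deriv bmp) := bmp_cd.continuous_deriv le_rfl
  rcases h with h | h
  · have h1 : Tendsto (deriv bmp) (𝓝[<] u) (𝓝 (deriv bmp u)) :=
      hc.continuousAt.tendsto.mono_left nhdsWithin_le_nhds
    have h2 : Tendsto (deriv bmp) (𝓝[<] u) (𝓝 0) := by
      apply tendsto_const_nhds.congr'
      filter_upwards [self_mem_nhdsWithin] with v hv
      exact (bmp_der_zero (Or.inl (lt_of_lt_of_le hv h))).symm
    exact tendsto_nhds_unique h1 h2
  · have h1 : Tendsto (deriv bmp) (𝓝[>] u) (𝓝 (deriv bmp u)) :=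
      hc.continuousAt.tendsto.mono_left nhdsWithin_le_nhds
    have h2 : Tendsto (deriv bmp) (𝓝[>] u) (𝓝 0) := by
      apply tendsto_const_nhds.congr'
      filter_upwards [self_mem_nhdsWithin] with v hv
      exact (bmp_der_zero (Or.inr (lt_of_le_of_lt h hv))).symm
    exact tendsto_nhds_unique h1 h2

lemma exp_out {t : ℝ} (ht : t ∉ Icc (0 : ℝ) 1) :
    Real.exp (2 * t) ≤ 1 ∨ 3 ≤ Real.exp (2 * t) := by
  rw [mem_Icc, not_and_or, not_le, not_le] at ht
  rcases ht with h | h
  · left
    rw [Real.exp_le_one_iff]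
    linarith
  · right
    have := Real.add_one_le_exp (2 * t)
    linarith

lemma supp_of_out {f : ℝ → ℝ} (hf : ∀ t, t ∉ Icc (0 : ℝ) 1 → f t = 0) : HasCompactSupport f :=
  HasCompactSupport.intro isCompact_Icc hf

/-- the integrals of the bump function -/
lemma bmp_parts (c : ℝ) : ∫ t : ℝ, Real.exp ((c + 2) * t) * deriv bmp (Real.exp (2 * t)) =
    -(c / 2) * ∫ t : ℝ, Real.exp (c * t) * bmp (Real.exp (2 * t)) := by
  have hc : Continuous (bmp : ℝ → ℝ) := bmp.continuous
  have hc' : Continuous (deriv bmp) := bmp_cd.continuous_deriv le_rfl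
  have i1 : Integrable fun t : ℝ => Real.exp (c * t) * bmp (Real.exp (2 * t)) := by
    apply Continuous.integrable_of_hasCompactSupport (by fun_prop)
    apply supp_of_out
    intro t ht
    rw [bmp_zero (exp_out ht), mul_zero]
  have i2 : Integrable fun t : ℝ => Real.exp ((c + 2) * t) * deriv bmp (Real.exp (2 * t)) := by
    apply Continuous.integrable_of_hasCompactSupport (by fun_prop)
    apply supp_of_out
    intro t ht
    rw [bmp_der_zero' (exp_out ht), mul_zero]
  have hd : ∀ t : ℝ, HasDerivAt (fun t : ℝ => Real.exp (c * t) * bmp (Real.exp (2 * t)))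
      (c * (Real.exp (c * t) * bmp (Real.exp (2 * t))) +
        2 * (Real.exp ((c + 2) * t) * deriv bmp (Real.exp (2 * t)))) t := by
    intro t
    have h1 : HasDerivAt (fun t : ℝ => Real.exp (c * t)) (Real.exp (c * t) * c) t := by
      have := ((hasDerivAt_id t).const_mul c).exp
      simpa using this
    have h2 : HasDerivAt (fun t : ℝ => Real.exp (2 * t)) (Real.exp (2 * t) * 2) t := by
      have := ((hasDerivAt_id t).const_mul 2).exp
      simpa using this
    have h3 : HasDerivAt (bmp : ℝ → ℝ) (deriv bmp (Real.exp (2 * t))) (Real.exp (2 * t)) :=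
      (bmp_cd.differentiable one_ne_zero _).hasDerivAt
    have h4 := h1.mul (h3.comp t h2)
    have h5 : Real.exp ((c + 2) * t) = Real.exp (c * t) * Real.exp (2 * t) := by
      rw [← Real.exp_add]; congr 1; ring
    rw [h5]
    refine h4.congr_deriv ?_
    simp only [Function.comp]
    ring
  have h0 := integral_eq_zero_of_hasDerivAt_of_integrable hd
    ((i1.const_mul c).add (i2.const_mul 2)) i1
  rw [integral_add (i1.const_mul c) (i2.const_mul 2), integral_const_mul, integral_const_mul] at h0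
  linarith

lemma bmp_pos (c : ℝ) : 0 < ∫ t : ℝ, Real.exp (c * t) * bmp (Real.exp (2 * t)) := by
  have hc : Continuous (bmp : ℝ → ℝ) := bmp.continuous
  have hcc : Continuous fun t : ℝ => Real.exp (c * t) * bmp (Real.exp (2 * t)) := by fun_prop
  have hs : HasCompactSupport fun t : ℝ => Real.exp (c * t) * bmp (Real.exp (2 * t)) := by
    apply supp_of_out
    intro t ht
    rw [bmp_zero (exp_out ht), mul_zero]
  apply hcc.integral_pos_of_hasCompactSupport_nonneg_nonzero hs (x := Real.log 2 / 2)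
  · intro t
    exact mul_nonneg (Real.exp_pos _).le (bmp.nonneg)
  · have h1 : Real.exp (2 * (Real.log 2 / 2)) = 2 := by
      rw [mul_div_cancel₀ _ (by norm_num : (2 : ℝ) ≠ 0), Real.exp_log (by norm_num)]
    rw [h1]
    have h2 : bmp (2 : ℝ) = 1 := bmp.one_of_mem_closedBall (by simp [bmp])
    rw [h2, mul_one]
    exact (Real.exp_pos _).ne'

/-! ### functions of one variable -/

lemma int_fin1 (φ : ℝ → ℝ) : ∫ s : Fin (0 + 1) → ℝ, φ (s 0) = ∫ t, φ t :=
  (volume_preserving_funUnique (Fin 1) ℝ).integral_comp' (g := φ)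

lemma intble_fin1 {φ : ℝ → ℝ} (h : Integrable φ) :
    Integrable fun s : Fin (0 + 1) → ℝ => φ (s 0) :=
  ((volume_preserving_funUnique (Fin 1) ℝ).integrable_comp_emb
    (MeasurableEquiv.measurableEmbedding _)).2 h

lemma ee_zero {k : ℕ} (s : Fin (k + 1) → ℝ) : ee s 0 = Real.exp (2 * s 0) := rfl

lemma QQ_zero {a k : ℕ} (z : Fin (a + k) → ℝ) : (QQ z : Fin (k + 1) → ℝ) 0 = sq z := rfl

lemma bmp_int (c : ℝ) : Integrable fun t : ℝ => Real.exp (c * t) * bmp (Real.exp (2 * t)) := by
  have hc : Continuous (bmp : ℝ → ℝ) := bmp.continuous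
  apply Continuous.integrable_of_hasCompactSupport (by fun_prop)
  apply supp_of_out
  intro t ht
  rw [bmp_zero (exp_out ht), mul_zero]

lemma bmp_int' (c : ℝ) :
    Integrable fun t : ℝ => Real.exp (c * t) * deriv bmp (Real.exp (2 * t)) := by
  have hc' : Continuous (deriv bmp) := bmp_cd.continuous_deriv le_rfl
  apply Continuous.integrable_of_hasCompactSupport (by fun_prop)
  apply supp_of_out
  intro t ht
  rw [bmp_der_zero' (exp_out ht), mul_zero]

/-- polar coordinates with the bump function -/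
lemma pol_bmp {a : ℕ} (ha : 1 ≤ a) {n : ℕ} {p : MvPolynomial (Fin a) ℝ} (hp : p.IsHomogeneous n) :
    Integrable (fun z : Fin (a + 0) → ℝ => bmp (sq z) * evl p (xx z)) ∧
    ∫ z : Fin (a + 0) → ℝ, bmp (sq z) * evl p (xx z) =
      cS p * ∫ t : ℝ, Real.exp ((n + a) * t) * bmp (Real.exp (2 * t)) := by
  have h := s_POL a 0 ha n p hp (fun u => bmp (u 0))
    (bmp.continuous.measurable.comp (measurable_pi_apply 0))
    (intble_fin1 (bmp_int (n + a)))
  refine ⟨h.1, h.2.trans ?_⟩
  congr 1
  exact int_fin1 (fun t => Real.exp ((n + a) * t) * bmp (Real.exp (2 * t)))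

lemma pol_bmp' {a : ℕ} (ha : 1 ≤ a) {n : ℕ} {p : MvPolynomial (Fin a) ℝ} (hp : p.IsHomogeneous n) :
    Integrable (fun z : Fin (a + 0) → ℝ => deriv bmp (sq z) * evl p (xx z)) ∧
    ∫ z : Fin (a + 0) → ℝ, deriv bmp (sq z) * evl p (xx z) =
      cS p * ∫ t : ℝ, Real.exp ((n + a) * t) * deriv bmp (Real.exp (2 * t)) := by
  have hc' : Continuous (deriv bmp) := bmp_cd.continuous_deriv le_rfl
  have h := s_POL a 0 ha n p hp (fun u => deriv bmp (u 0))
    (hc'.measurable.comp (measurable_pi_apply 0))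
    (intble_fin1 (bmp_int' (n + a)))
  refine ⟨h.1, h.2.trans ?_⟩
  congr 1
  exact int_fin1 (fun t => Real.exp ((n + a) * t) * deriv bmp (Real.exp (2 * t)))

theorem s_DIV : S_DIV := by
  intro a ha n p hp i
  have hpd := hp.pderiv (i := i)
  have hpX : (MvPolynomial.X i * p).IsHomogeneous (n + 1) := by
    have := (MvPolynomial.isHomogeneous_X ℝ i).mul hp
    rwa [add_comm] at this
  set c : ℝ := (n : ℝ) - 1 + a with hc
  set I : ℝ := ∫ t : ℝ, Real.exp (c * t) * bmp (Real.exp (2 * t)) with hI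
  -- the two integrals
  have hA : Integrable (fun z : Fin (a + 0) → ℝ =>
      bmp (sq z) * evl (MvPolynomial.pderiv i p) (xx z)) ∧
      ∫ z : Fin (a + 0) → ℝ, bmp (sq z) * evl (MvPolynomial.pderiv i p) (xx z) =
        cS (MvPolynomial.pderiv i p) * I := by
    have h1 := pol_bmp ha hpd
    refine ⟨h1.1, ?_⟩
    rcases Nat.eq_zero_or_pos n with h0 | h0
    · have h2 : MvPolynomial.pderiv i p = 0 := by
        subst h0
        rw [← MvPolynomial.totalDegree_zero_iff_isHomogeneous,
          MvPolynomial.totalDegree_eq_zero_iff_eq_C] at hp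
        rw [hp, MvPolynomial.pderiv_C]
      rw [h2, cS_zero, zero_mul]
      simp [evl]
    · rw [h1.2]
      congr 1
      rw [hI, hc, Nat.cast_sub h0]
      simp
  have hB := pol_bmp' ha hpX
  have hC := pol_bmp ha hp
  -- the functions
  set v : Fin (a + 0) → ℝ := Pi.single (Fin.castAdd 0 i) 1 with hv
  set f : (Fin (a + 0) → ℝ) → ℝ := fun z => evl p (xx z) with hf
  set g : (Fin (a + 0) → ℝ) → ℝ := fun z => bmp (sq z) with hg
  have hfd : Differentiable ℝ f := fun z => (evl_xx_fd p z).differentiableAt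
  have hgf : ∀ z, HasFDerivAt g (deriv bmp (sq z) • ∑ i : Fin a, (2 * z (Fin.castAdd 0 i)) •
      (ContinuousLinearMap.proj (Fin.castAdd 0 i) : (Fin (a + 0) → ℝ) →L[ℝ] ℝ)) z := by
    intro z
    have h3 : HasDerivAt (bmp : ℝ → ℝ) (deriv bmp (sq z)) (sq z) :=
      (bmp_cd.differentiable one_ne_zero _).hasDerivAt
    exact h3.comp_hasFDerivAt z (sq_fd z)
  have hgd : Differentiable ℝ g := fun z => (hgf z).differentiableAt
  have hfv : ∀ z, fderiv ℝ f z v = evl (MvPolynomial.pderiv i p) (xx z) := fun z =>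
    evl_xx_pd p z i
  have hgv : ∀ z, fderiv ℝ g z v = deriv bmp (sq z) * (2 * z (Fin.castAdd 0 i)) := by
    intro z
    rw [(hgf z).fderiv, _root_.smul_apply, sq_dir, smul_eq_mul]
  have hXe : ∀ z : Fin (a + 0) → ℝ, evl (MvPolynomial.X i * p) (xx z) =
      z (Fin.castAdd 0 i) * evl p (xx z) := by
    intro z
    rw [evl_mul]
    congr 1
    simp [evl, xx]
  have e1 : ∀ z, fderiv ℝ f z v * g z = bmp (sq z) * evl (MvPolynomial.pderiv i p) (xx z) := by
    intro z
    rw [hfv, mul_comm]
  have e2 : ∀ z, f z * fderiv ℝ g z v =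
      2 * (deriv bmp (sq z) * evl (MvPolynomial.X i * p) (xx z)) := by
    intro z
    rw [hgv, hXe]
    ring
  have e3 : ∀ z, f z * g z = bmp (sq z) * evl p (xx z) := fun z => mul_comm _ _
  have hparts := integral_mul_fderiv_eq_neg_fderiv_mul_of_integrable (μ := volume) (f := f)
    (g := g) (v := v) (by simp only [e1]; exact hA.1)
    (by simp only [e2]; exact hB.1.const_mul 2) (by simp only [e3]; exact hC.1)
    (fun z _ => hfd z) (fun z _ => hgd z)
  simp only [e1, e2] at hparts
  rw [integral_const_mul, hA.2, hB.2] at hparts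
  have hJ := bmp_parts c
  have hexp : ((n + 1 : ℕ) : ℝ) + a = c + 2 := by
    rw [hc]; push_cast; ring
  rw [hexp, hJ, ← hI] at hparts
  have hIpos : 0 < I := bmp_pos c
  have h5 : cS (MvPolynomial.pderiv i p) * I = c * cS (MvPolynomial.X i * p) * I := by
    linear_combination hparts
  exact mul_right_cancel₀ hIpos.ne' h5

theorem s_GRAD : S_GRAD := by
  intro a ha B l Y hY α β
  have hβ := hY.hom β
  have hα := hY.hom α
  have key : ∑ i, cS (MvPolynomial.pderiv i (Y α) * MvPolynomial.pderiv i (Y β)) =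
      ((l α : ℝ) + l β + a - 2) * l β * cS (Y α * Y β) := by
    rcases Nat.eq_zero_or_pos (l β) with h0 | h0
    · have h2 : ∀ i, MvPolynomial.pderiv i (Y β) = 0 := by
        intro i
        rw [h0, ← MvPolynomial.totalDegree_zero_iff_isHomogeneous,
          MvPolynomial.totalDegree_eq_zero_iff_eq_C] at hβ
        rw [hβ, MvPolynomial.pderiv_C]
      rw [h0]
      simp [h2, cS_zero]
    · -- the divergence theorem for `Y α ∂ᵢ Y β`
      have h1 : ∀ i, cS (MvPolynomial.pderiv i (Y α) * MvPolynomial.pderiv i (Y β)) +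
          cS (Y α * MvPolynomial.pderiv i (MvPolynomial.pderiv i (Y β))) =
          ((l α : ℝ) + l β + a - 2) * cS (Y α * (MvPolynomial.X i * MvPolynomial.pderiv i (Y β))) := by
        intro i
        have h2 := s_DIV a ha (l α + (l β - 1)) (Y α * MvPolynomial.pderiv i (Y β))
          (hα.mul hβ.pderiv) i
        rw [MvPolynomial.pderiv_mul, cS_add] at h2
        rw [h2]
        have h3 : ((l α + (l β - 1) : ℕ) : ℝ) - 1 + a = (l α : ℝ) + l β + a - 2 := by
          push_cast [Nat.cast_sub h0]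
          ring
        rw [h3]
        congr 2
        ring
      have h4 : ∑ i, cS (Y α * MvPolynomial.pderiv i (MvPolynomial.pderiv i (Y β))) = 0 := by
        rw [← cS_sum, ← Finset.mul_sum]
        have h5 : ∑ i, MvPolynomial.pderiv i (MvPolynomial.pderiv i (Y β)) = 0 := by
          have := hY.harm β
          simpa [Lap, LinearMap.sum_apply] using this
        rw [h5, mul_zero, cS_zero]
      have h6 : ∑ i, cS (Y α * (MvPolynomial.X i * MvPolynomial.pderiv i (Y β))) =
          l β * cS (Y α * Y β) := by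
        rw [← cS_sum, ← Finset.mul_sum, hβ.sum_X_mul_pderiv, ← cS_smul]
        congr 1
        rw [mul_smul_comm, Nat.cast_smul_eq_nsmul]
      have h7 := Finset.sum_congr (rfl : (Finset.univ : Finset (Fin a)) = Finset.univ)
        (fun i _ => h1 i)
      rw [Finset.sum_add_distrib, h4, add_zero, ← Finset.mul_sum, h6] at h7
      rw [h7]
      ring
  rw [key, hY.orth]
  by_cases h : α = β
  · subst h
    rw [if_pos rfl, if_pos rfl]
    ring
  · rw [if_neg h, if_neg h, mul_zero]

end Pool.Agent.L7h76.RA
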