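import Mathlib
import Pool.Agent.L7h98.RA.Stm
import Pool.Agent.L7h76.RA.Div

/-!
Regularity, products and energy of sums of profiles times spherical harmonics (part `S_ENER` of the
project RA).
-/

set_option autoImplicit false

open MeasureTheory Set Filter Topology
open scoped ENNReal

namespace Pool.Agent.L7h76.RA

open LTd (pd)
open Pool.Agent.L7h98.RA Pool.Agent.R117.RL Pool.Agent.N537.RS Pool.Agent.N537.RS.HS

variable {a k : ℕ}

/-! ### bounded functions with compact support away from `u = 0` -/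

structure Ok (F : (Fin (k + 1) → ℝ) → ℝ) : Prop where
  meas : Measurable F
  bd : ∃ C : ℝ, 0 ≤ C ∧ ∀ s, |F s| ≤ C
  low : ∃ δ : ℝ, 0 < δ ∧ ∀ s, s 0 ≤ δ → F s = 0
  far : ∃ R : ℝ, 0 < R ∧ ∀ s, R < ‖s‖ → F s = 0

lemma Ok.mul {F H : (Fin (k + 1) → ℝ) → ℝ} (hF : Ok F) (hH : Measurable H)
    (hb : ∃ C : ℝ, ∀ s, |H s| ≤ C) : Ok fun s => H s * F s := by
  obtain ⟨C, hC0, hC⟩ := hF.bd
  obtain ⟨δ, hδ, h1⟩ := hF.low
  obtain ⟨R, hR, h2⟩ := hF.far
  obtain ⟨D, hD⟩ := hb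
  have hD0 : 0 ≤ D := (abs_nonneg _).trans (hD 0)
  refine ⟨hH.mul hF.meas, ⟨D * C, by positivity, fun s => ?_⟩, ⟨δ, hδ, fun s hs => ?_⟩,
    ⟨R, hR, fun s hs => ?_⟩⟩
  · rw [abs_mul]
    exact mul_le_mul (hD s) (hC s) (abs_nonneg _) hD0
  · rw [h1 s hs, mul_zero]
  · rw [h2 s hs, mul_zero]

lemma Ok.mul_ok {F H : (Fin (k + 1) → ℝ) → ℝ} (hF : Ok F) (hH : Ok H) :
    Ok fun s => H s * F s := by
  obtain ⟨C, -, hC⟩ := hH.bd
  exact hF.mul hH.meas ⟨C, hC⟩

lemma Ok.const {F : (Fin (k + 1) → ℝ) → ℝ} (hF : Ok F) (c : ℝ) : Ok fun s => c * F s :=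
  hF.mul measurable_const ⟨|c|, fun _ => le_rfl⟩

lemma Ok.coord {F : (Fin (k + 1) → ℝ) → ℝ} (hF : Ok F) : Ok fun s => s 0 * F s := by
  obtain ⟨C, hC0, hC⟩ := hF.bd
  obtain ⟨δ, hδ, h1⟩ := hF.low
  obtain ⟨R, hR, h2⟩ := hF.far
  refine ⟨(measurable_pi_apply 0).mul hF.meas, ⟨R * C, by positivity, fun s => ?_⟩,
    ⟨δ, hδ, fun s hs => ?_⟩, ⟨R, hR, fun s hs => ?_⟩⟩
  · rw [abs_mul]
    by_cases h : R < ‖s‖
    · rw [h2 s h, abs_zero, mul_zero]
      positivity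
    · have h3 : |s 0| ≤ ‖s‖ := norm_le_pi_norm s 0
      exact mul_le_mul (h3.trans (not_lt.1 h)) (hC s) (abs_nonneg _) hR.le
  · rw [h1 s hs, mul_zero]
  · rw [h2 s hs, mul_zero]

lemma Ok.add {F H : (Fin (k + 1) → ℝ) → ℝ} (hF : Ok F) (hH : Ok H) : Ok fun s => F s + H s := by
  obtain ⟨C, hC0, hC⟩ := hF.bd
  obtain ⟨δ, hδ, h1⟩ := hF.low
  obtain ⟨R, hR, h2⟩ := hF.far
  obtain ⟨C', hC0', hC'⟩ := hH.bd
  obtain ⟨δ', hδ', h1'⟩ := hH.low
  obtain ⟨R', hR', h2'⟩ := hH.far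
  refine ⟨hF.meas.add hH.meas, ⟨C + C', by positivity, fun s => ?_⟩,
    ⟨min δ δ', lt_min hδ hδ', fun s hs => ?_⟩, ⟨max R R', lt_max_of_lt_left hR, fun s hs => ?_⟩⟩
  · exact (abs_add_le _ _).trans (add_le_add (hC s) (hC' s))
  · rw [h1 s (hs.trans (min_le_left _ _)), h1' s (hs.trans (min_le_right _ _)), add_zero]
  · rw [h2 s (lt_of_le_of_lt (le_max_left _ _) hs), h2' s (lt_of_le_of_lt (le_max_right _ _) hs),
      add_zero]

/-- the region in the variables `s` -/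
lemma ee_far {R δ : ℝ} (hδ : 0 < δ) (hR : 0 < R) (s : Fin (k + 1) → ℝ)
    (h : max R (max (Real.log R / 2) (-(Real.log δ / 2))) < ‖s‖) :
    ee s 0 ≤ δ ∨ R < ‖ee s‖ := by
  obtain ⟨j, hj⟩ : ∃ j, max R (max (Real.log R / 2) (-(Real.log δ / 2))) < |s j| := by
    by_contra hcon
    push Not at hcon
    have h0 : 0 ≤ max R (max (Real.log R / 2) (-(Real.log δ / 2))) :=
      hR.le.trans (le_max_left _ _)
    exact absurd ((pi_norm_le_iff_of_nonneg h0).2 hcon) (not_le.2 h)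
  refine Fin.cases (motive := fun j => max R (max (Real.log R / 2) (-(Real.log δ / 2))) < |s j| →
    ee s 0 ≤ δ ∨ R < ‖ee s‖) ?_ ?_ j hj
  · intro h0
    rw [lt_abs] at h0
    rcases h0 with h0 | h0
    · right
      have h1 : Real.log R / 2 < s 0 :=
        lt_of_le_of_lt ((le_max_left _ _).trans (le_max_right _ _)) h0
      have h2 : R < ee s 0 := by
        rw [ee_zero, ← Real.log_lt_iff_lt_exp hR]
        linarith
      have h3 : |ee s 0| ≤ ‖ee s‖ := norm_le_pi_norm (ee s) 0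
      exact lt_of_lt_of_le h2 ((le_abs_self _).trans h3)
    · left
      have h1 : -(Real.log δ / 2) < -s 0 :=
        lt_of_le_of_lt ((le_max_right _ _).trans (le_max_right _ _)) h0
      rw [ee_zero, ← Real.le_log_iff_exp_le hδ]
      linarith
  · intro i hi
    right
    have h1 : R < |s i.succ| := lt_of_le_of_lt (le_max_left _ _) hi
    have h2 : |ee s i.succ| ≤ ‖ee s‖ := norm_le_pi_norm (ee s) i.succ
    exact lt_of_lt_of_le h1 h2

lemma ok_supp {F : (Fin (k + 1) → ℝ) → ℝ} (low : ∃ δ : ℝ, 0 < δ ∧ ∀ s, s 0 ≤ δ → F s = 0)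
    (far : ∃ R : ℝ, 0 < R ∧ ∀ s, R < ‖s‖ → F s = 0) (W : (Fin (k + 1) → ℝ) → ℝ) :
    HasCompactSupport fun s => W s * F (ee s) := by
  obtain ⟨δ, hδ, h1⟩ := low
  obtain ⟨R, hR, h2⟩ := far
  apply HasCompactSupport.intro (isCompact_closedBall (0 : Fin (k + 1) → ℝ)
    (max R (max (Real.log R / 2) (-(Real.log δ / 2)))))
  intro s hs
  rw [mem_closedBall_zero_iff, not_le] at hs
  rcases ee_far hδ hR s hs with h | h
  · rw [h1 _ h, mul_zero]
  · rw [h2 _ h, mul_zero]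

lemma Ok.int {F : (Fin (k + 1) → ℝ) → ℝ} (hF : Ok F) (c : ℝ) :
    Integrable fun s : Fin (k + 1) → ℝ => Real.exp (c * s 0) * F (ee s) := by
  obtain ⟨C, hC0, hC⟩ := hF.bd
  have hs := ok_supp hF.low hF.far (fun s => Real.exp (c * s 0))
  set f : (Fin (k + 1) → ℝ) → ℝ := fun s => Real.exp (c * s 0) * F (ee s) with hf
  have hm : Measurable f := by
    have h1 : Measurable fun s : Fin (k + 1) → ℝ => Real.exp (c * s 0) := by fun_prop
    exact h1.mul (hF.meas.comp ee_meas)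
  obtain ⟨M, hM⟩ : ∃ M : ℝ, ∀ s ∈ tsupport f, |Real.exp (c * s 0)| ≤ M := by
    have hcont : Continuous fun s : Fin (k + 1) → ℝ => Real.exp (c * s 0) := by fun_prop
    obtain ⟨M, hM⟩ := (IsCompact.bddAbove_image hs hcont.abs.continuousOn)
    exact ⟨M, fun s hs => hM ⟨s, hs, rfl⟩⟩
  have h1 : IntegrableOn f (tsupport f) := by
    apply Measure.integrableOn_of_bounded (M := |M| * C) hs.measure_lt_top.ne
      hm.aestronglyMeasurable
    refine (ae_restrict_iff' (isClosed_tsupport f).measurableSet).2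
      (Filter.Eventually.of_forall fun s hs => ?_)
    rw [hf, Real.norm_eq_abs, abs_mul]
    exact mul_le_mul ((hM s hs).trans (le_abs_self _)) (hC _) (abs_nonneg _) (abs_nonneg _)
  rwa [integrableOn_iff_integrable_of_support_subset (subset_tsupport f)] at h1

lemma Ok.pol (ha : 1 ≤ a) {F : (Fin (k + 1) → ℝ) → ℝ} (hF : Ok F) {n : ℕ}
    {p : MvPolynomial (Fin a) ℝ} (hp : p.IsHomogeneous n) :
    Integrable (fun z : Fin (a + k) → ℝ => F (QQ z) * evl p (xx z)) ∧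
    ∫ z : Fin (a + k) → ℝ, F (QQ z) * evl p (xx z) =
      cS p * ∫ s : Fin (k + 1) → ℝ, Real.exp ((n + a) * s 0) * F (ee s) :=
  s_POL a k ha n p hp F hF.meas (hF.int _)

/-! ### profiles -/

lemma far_of_supp {n : ℕ} {G : (Fin n → ℝ) → ℝ} (h : HasCompactSupport G) :
    ∃ R : ℝ, 0 < R ∧ ∀ s, R < ‖s‖ → G s = 0 := by
  obtain ⟨R, hR⟩ := h.isCompact.isBounded.subset_closedBall (0 : Fin n → ℝ)
  refine ⟨max R 1, lt_max_of_lt_right one_pos, fun s hs => ?_⟩
  by_contra hne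
  have h1 := hR (subset_tsupport G hne)
  rw [mem_closedBall_zero_iff] at h1
  exact absurd (lt_of_le_of_lt (le_max_left _ _) hs) (not_lt.2 h1)

lemma prf_ok {G : (Fin (k + 1) → ℝ) → ℝ} (h : Prf G) : Ok G := by
  refine ⟨h.cc.smooth.continuous.measurable, ?_, h.pos, far_of_supp h.cc.supp⟩
  obtain ⟨C, hC⟩ := h.cc.smooth.continuous.bounded_above_of_compact_support h.cc.supp
  exact ⟨C, (norm_nonneg _).trans (hC 0), hC⟩

lemma prf_pd_ok {G : (Fin (k + 1) → ℝ) → ℝ} (h : Prf G) (j : Fin (k + 1)) : Ok (pd j G) := by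
  have hc : Continuous (pd j G) :=
    (h.cc.smooth.continuous_fderiv one_ne_zero).clm_apply continuous_const
  have hs : HasCompactSupport (pd j G) := h.cc.supp.fderiv_apply ℝ _
  refine ⟨hc.measurable, ?_, ?_, far_of_supp hs⟩
  · obtain ⟨C, hC⟩ := hc.bounded_above_of_compact_support hs
    exact ⟨C, (norm_nonneg _).trans (hC 0), hC⟩
  · obtain ⟨δ, hδ, h1⟩ := h.pos
    refine ⟨δ / 2, by positivity, fun s hs => ?_⟩
    have h2 : G =ᶠ[𝓝 s] fun _ => 0 := by
      have h3 : {t : Fin (k + 1) → ℝ | t 0 < δ} ∈ 𝓝 s :=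
        (isOpen_lt (continuous_apply 0) continuous_const).mem_nhds
          (show s 0 < δ by linarith)
      filter_upwards [h3] with t ht
      exact h1 t (le_of_lt ht)
    unfold pd
    rw [h2.fderiv_eq]
    simp

/-! ### the chain rule for `ee` and `QQ` -/

/-- the derivative of `ee` -/
noncomputable def eeD (s : Fin (k + 1) → ℝ) : (Fin (k + 1) → ℝ) →L[ℝ] (Fin (k + 1) → ℝ) :=
  ContinuousLinearMap.pi fun j => Fin.cases (motive := fun _ => (Fin (k + 1) → ℝ) →L[ℝ] ℝ)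
    ((2 * Real.exp (2 * s 0)) • (ContinuousLinearMap.proj 0 : (Fin (k + 1) → ℝ) →L[ℝ] ℝ))
    (fun i => ContinuousLinearMap.proj i.succ) j

lemma ee_fd (s : Fin (k + 1) → ℝ) : HasFDerivAt (ee : (Fin (k + 1) → ℝ) → _) (eeD s) s := by
  rw [hasFDerivAt_pi']
  intro j
  refine Fin.cases ?_ (fun i => ?_) j
  · have h1 : HasFDerivAt (fun s : Fin (k + 1) → ℝ => s 0)
        (ContinuousLinearMap.proj 0 : (Fin (k + 1) → ℝ) →L[ℝ] ℝ) s :=
      (ContinuousLinearMap.proj (R := ℝ) (φ := fun _ : Fin (k + 1) => ℝ) 0).hasFDerivAt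
    have h2 : HasDerivAt (fun t : ℝ => Real.exp (2 * t)) (2 * Real.exp (2 * s 0)) (s 0) := by
      have := ((hasDerivAt_id (s 0)).const_mul 2).exp
      simp only [id, mul_one] at this
      rwa [mul_comm] at this
    exact h2.comp_hasFDerivAt s h1
  · exact (ContinuousLinearMap.proj (R := ℝ) (φ := fun _ : Fin (k + 1) => ℝ)
      i.succ).hasFDerivAt

lemma eeD_zero (s : Fin (k + 1) → ℝ) :
    eeD s (Pi.single 0 1) = (2 * Real.exp (2 * s 0)) • (Pi.single 0 1 : Fin (k + 1) → ℝ) := by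
  funext j
  refine Fin.cases ?_ (fun i => ?_) j
  · simp [eeD]
  · simp [eeD]

lemma eeD_succ (s : Fin (k + 1) → ℝ) (r : Fin k) :
    eeD s (Pi.single r.succ 1) = (Pi.single r.succ 1 : Fin (k + 1) → ℝ) := by
  funext j
  refine Fin.cases ?_ (fun i => ?_) j
  · simp [eeD]
  · simp [eeD]

/-- the derivative of `QQ` -/
noncomputable def QQD (z : Fin (a + k) → ℝ) : (Fin (a + k) → ℝ) →L[ℝ] (Fin (k + 1) → ℝ) :=
  ContinuousLinearMap.pi fun j => Fin.cases (motive := fun _ => (Fin (a + k) → ℝ) →L[ℝ] ℝ)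
    (∑ i : Fin a, (2 * z (Fin.castAdd k i)) •
      (ContinuousLinearMap.proj (Fin.castAdd k i) : (Fin (a + k) → ℝ) →L[ℝ] ℝ))
    (fun i => ContinuousLinearMap.proj (Fin.natAdd a i)) j

lemma QQ_fd (z : Fin (a + k) → ℝ) : HasFDerivAt (QQ : (Fin (a + k) → ℝ) → _) (QQD z) z := by
  rw [hasFDerivAt_pi']
  intro j
  refine Fin.cases ?_ (fun i => ?_) j
  · exact sq_fd z
  · exact (ContinuousLinearMap.proj (R := ℝ) (φ := fun _ : Fin (a + k) => ℝ)
      (Fin.natAdd a i)).hasFDerivAt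

lemma QQD_left (z : Fin (a + k) → ℝ) (i : Fin a) :
    QQD z (Pi.single (Fin.castAdd k i) 1) =
      (2 * z (Fin.castAdd k i)) • (Pi.single 0 1 : Fin (k + 1) → ℝ) := by
  funext j
  refine Fin.cases ?_ (fun r => ?_) j
  · have h1 : QQD z (Pi.single (Fin.castAdd k i) 1) 0 = 2 * z (Fin.castAdd k i) := sq_dir z i
    rw [h1]
    simp
  · have h1 : QQD z (Pi.single (Fin.castAdd k i) 1) r.succ =
        (Pi.single (Fin.castAdd k i) (1 : ℝ) : Fin (a + k) → ℝ) (Fin.natAdd a r) := rfl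
    rw [h1, Pi.single_apply, if_neg]
    · simp
    · intro h
      have := congrArg Fin.val h
      simp at this
      omega

lemma QQD_right (z : Fin (a + k) → ℝ) (r : Fin k) :
    QQD z (Pi.single (Fin.natAdd a r) 1) = (Pi.single r.succ 1 : Fin (k + 1) → ℝ) := by
  funext j
  refine Fin.cases ?_ (fun i => ?_) j
  · have h1 : QQD z (Pi.single (Fin.natAdd a r) 1) 0 = (∑ i : Fin a, (2 * z (Fin.castAdd k i)) •
      (ContinuousLinearMap.proj (Fin.castAdd k i) : (Fin (a + k) → ℝ) →L[ℝ] ℝ))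
      (Pi.single (Fin.natAdd a r) 1) := rfl
    rw [h1, _root_.sum_apply, Finset.sum_eq_zero]
    · simp
    · intro i _
      have h2 : (Pi.single (Fin.natAdd a r) (1 : ℝ) : Fin (a + k) → ℝ) (Fin.castAdd k i) = 0 := by
        rw [Pi.single_apply, if_neg]
        intro h
        have := congrArg Fin.val h
        simp at this
        omega
      simp [h2]
  · have h1 : QQD z (Pi.single (Fin.natAdd a r) 1) i.succ =
        (Pi.single (Fin.natAdd a r) (1 : ℝ) : Fin (a + k) → ℝ) (Fin.natAdd a i) := rfl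
    rw [h1, Pi.single_apply, Pi.single_apply]
    congr 1
    simp

lemma ee_cd : ContDiff ℝ 1 (ee : (Fin (k + 1) → ℝ) → Fin (k + 1) → ℝ) := by
  rw [contDiff_pi]
  intro j
  refine Fin.cases ?_ (fun i => ?_) j
  · have : (fun s : Fin (k + 1) → ℝ => ee s 0) = fun s => Real.exp (2 * s 0) := rfl
    rw [this]
    fun_prop
  · have : (fun s : Fin (k + 1) → ℝ => ee s i.succ) = fun s => s i.succ := rfl
    rw [this]
    fun_prop

lemma QQ_cd : ContDiff ℝ 1 (QQ : (Fin (a + k) → ℝ) → Fin (k + 1) → ℝ) := by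
  rw [contDiff_pi]
  intro j
  refine Fin.cases ?_ (fun i => ?_) j
  · have : (fun z : Fin (a + k) → ℝ => (QQ z : Fin (k + 1) → ℝ) 0) =
        fun z => ∑ i : Fin a, z (Fin.castAdd k i) ^ 2 := rfl
    rw [this]
    fun_prop
  · have : (fun z : Fin (a + k) → ℝ => (QQ z : Fin (k + 1) → ℝ) i.succ) =
        fun z => z (Fin.natAdd a i) := rfl
    rw [this]
    fun_prop

lemma xx_cd : ContDiff ℝ 1 (xx : (Fin (a + k) → ℝ) → E a) := (xxL a k).contDiff

/-- compact supports in the variables `z` -/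
lemma QQ_far {R : ℝ} (hR : 1 ≤ R) (z : Fin (a + k) → ℝ) (h : R < ‖z‖) :
    R < ‖(QQ z : Fin (k + 1) → ℝ)‖ := by
  obtain ⟨j, hj⟩ : ∃ j, R < |z j| := by
    by_contra hcon
    push Not at hcon
    exact absurd ((pi_norm_le_iff_of_nonneg (by linarith)).2 hcon) (not_le.2 h)
  refine Fin.addCases (motive := fun j => R < |z j| → R < ‖(QQ z : Fin (k + 1) → ℝ)‖)
    (fun i hi => ?_) (fun i hi => ?_) j hj
  · have h1 : |(QQ z : Fin (k + 1) → ℝ) 0| ≤ ‖(QQ z : Fin (k + 1) → ℝ)‖ :=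
      norm_le_pi_norm (QQ z : Fin (k + 1) → ℝ) 0
    have h2 : z (Fin.castAdd k i) ^ 2 ≤ ∑ i : Fin a, z (Fin.castAdd k i) ^ 2 :=
      Finset.single_le_sum (f := fun i : Fin a => z (Fin.castAdd k i) ^ 2)
        (fun _ _ => sq_nonneg _) (Finset.mem_univ i)
    have h3 : (QQ z : Fin (k + 1) → ℝ) 0 = ∑ i : Fin a, z (Fin.castAdd k i) ^ 2 := rfl
    have h4 : R < z (Fin.castAdd k i) ^ 2 := by
      rw [← sq_abs]
      nlinarith
    calc R < z (Fin.castAdd k i) ^ 2 := h4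
      _ ≤ (QQ z : Fin (k + 1) → ℝ) 0 := by rw [h3]; exact h2
      _ ≤ _ := (le_abs_self _).trans h1
  · have h1 : |(QQ z : Fin (k + 1) → ℝ) i.succ| ≤ ‖(QQ z : Fin (k + 1) → ℝ)‖ :=
      norm_le_pi_norm (QQ z : Fin (k + 1) → ℝ) i.succ
    exact lt_of_lt_of_le hi h1

lemma ww_cc {B : ℕ} (Y : Fin B → MvPolynomial (Fin a) ℝ) {G : Fin B → (Fin (k + 1) → ℝ) → ℝ}
    (hG : ∀ α, Cc1 (G α)) : Cc1 (ww Y G) := by
  constructor
  · unfold ww
    apply ContDiff.sum
    intro α _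
    exact ((hG α).smooth.comp QQ_cd).mul ((evl_contDiff (Y α)).comp xx_cd)
  · choose R hR0 hR using fun α => far_of_supp (hG α).supp
    set M : ℝ := 1 + ∑ α, R α with hM
    have hle : ∀ α, R α ≤ M := by
      intro α
      have := Finset.single_le_sum (f := R) (fun β _ => (hR0 β).le) (Finset.mem_univ α)
      linarith
    have hM1 : 1 ≤ M := by
      have : 0 ≤ ∑ α, R α := Finset.sum_nonneg fun β _ => (hR0 β).le
      linarith
    apply HasCompactSupport.intro (isCompact_closedBall (0 : Fin (a + k) → ℝ) M)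
    intro z hz
    rw [mem_closedBall_zero_iff, not_le] at hz
    apply Finset.sum_eq_zero
    intro α _
    rw [hR α _ (lt_of_le_of_lt (hle α) (QQ_far hM1 z hz)), zero_mul]

lemma ph_cc (a l : ℕ) {G : (Fin (k + 1) → ℝ) → ℝ} (hG : Prf G) : Cc1 (ph a l G) := by
  constructor
  · unfold ph
    apply ContDiff.mul
    · fun_prop
    · exact hG.cc.smooth.comp ee_cd
  · exact ok_supp (prf_ok hG).low (prf_ok hG).far _

lemma ph_pd_zero (a l : ℕ) {G : (Fin (k + 1) → ℝ) → ℝ} (hG : Prf G) (s : Fin (k + 1) → ℝ) :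
    pd 0 (ph a l G) s = Real.exp (((l : ℝ) + ((a : ℝ) - 2) / 2) * s 0) *
      (((l : ℝ) + ((a : ℝ) - 2) / 2) * G (ee s) + 2 * Real.exp (2 * s 0) * pd 0 G (ee s)) := by
  set c : ℝ := (l : ℝ) + ((a : ℝ) - 2) / 2 with hc
  have h1 : HasFDerivAt (fun s : Fin (k + 1) → ℝ => s 0)
      (ContinuousLinearMap.proj 0 : (Fin (k + 1) → ℝ) →L[ℝ] ℝ) s :=
    (ContinuousLinearMap.proj (R := ℝ) (φ := fun _ : Fin (k + 1) => ℝ) 0).hasFDerivAt
  have h2 : HasDerivAt (fun t : ℝ => Real.exp (c * t)) (c * Real.exp (c * s 0)) (s 0) := by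
    have := ((hasDerivAt_id (s 0)).const_mul c).exp
    simp only [id, mul_one] at this
    rwa [mul_comm] at this
  have h3 := h2.comp_hasFDerivAt s h1
  have h4 : HasFDerivAt G (fderiv ℝ G (ee s)) (ee s) :=
    (hG.cc.smooth.differentiable one_ne_zero _).hasFDerivAt
  have h5 := h3.mul (h4.comp s (ee_fd s))
  have h6 : pd 0 (ph a l G) s = fderiv ℝ (ph a l G) s (Pi.single 0 1) := rfl
  have h7 : HasFDerivAt (ph a l G) _ s := h5
  rw [h6, h7.fderiv]
  simp only [_root_.add_apply, _root_.smul_apply, ContinuousLinearMap.comp_apply, eeD_zero,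
    map_smul, smul_eq_mul, Function.comp, ContinuousLinearMap.proj_apply, Pi.single_eq_same]
  unfold pd
  ring

lemma ph_pd_succ (a l : ℕ) {G : (Fin (k + 1) → ℝ) → ℝ} (hG : Prf G) (s : Fin (k + 1) → ℝ)
    (r : Fin k) :
    pd r.succ (ph a l G) s = Real.exp (((l : ℝ) + ((a : ℝ) - 2) / 2) * s 0) *
      pd r.succ G (ee s) := by
  set c : ℝ := (l : ℝ) + ((a : ℝ) - 2) / 2 with hc
  have h1 : HasFDerivAt (fun s : Fin (k + 1) → ℝ => s 0)
      (ContinuousLinearMap.proj 0 : (Fin (k + 1) → ℝ) →L[ℝ] ℝ) s :=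
    (ContinuousLinearMap.proj (R := ℝ) (φ := fun _ : Fin (k + 1) => ℝ) 0).hasFDerivAt
  have h2 : HasDerivAt (fun t : ℝ => Real.exp (c * t)) (c * Real.exp (c * s 0)) (s 0) := by
    have := ((hasDerivAt_id (s 0)).const_mul c).exp
    simp only [id, mul_one] at this
    rwa [mul_comm] at this
  have h3 := h2.comp_hasFDerivAt s h1
  have h4 : HasFDerivAt G (fderiv ℝ G (ee s)) (ee s) :=
    (hG.cc.smooth.differentiable one_ne_zero _).hasFDerivAt
  have h5 := h3.mul (h4.comp s (ee_fd s))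
  have h6 : pd r.succ (ph a l G) s = fderiv ℝ (ph a l G) s (Pi.single r.succ 1) := rfl
  have h7 : HasFDerivAt (ph a l G) _ s := h5
  have h8 : (Pi.single r.succ (1 : ℝ) : Fin (k + 1) → ℝ) 0 = 0 := by simp
  rw [h6, h7.fderiv]
  simp only [_root_.add_apply, _root_.smul_apply, ContinuousLinearMap.comp_apply, eeD_succ,
    smul_eq_mul, Function.comp, ContinuousLinearMap.proj_apply, h8]
  unfold pd
  ring

end Pool.Agent.L7h76.RA
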