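import Mathlib
import Pool.Agent.L7h98.RA.Stm
import Pool.Agent.L7h76.RA.Ener

/-!
Cutting off a neighbourhood of `x = 0` (part `S_CUT` of the project RA).
-/

set_option autoImplicit false

open MeasureTheory Set Filter Topology
open scoped ENNReal

namespace Pool.Agent.L7h76.RA

open LTd (pd)
open Pool.Agent.L7h98.RA Pool.Agent.R117.RL Pool.Agent.N537.RS Pool.Agent.N537.RS.HS

variable {a k : ℕ}

/-- the cut-off function of one variable -/
noncomputable def chi (t : ℝ) : ℝ := Real.smoothTransition (t - 1)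

lemma chi_cd : ContDiff ℝ 1 chi :=
  (Real.smoothTransition.contDiff (n := 1)).comp (contDiff_id.sub contDiff_const)

lemma chi_low {t : ℝ} (h : t ≤ 1) : chi t = 0 :=
  Real.smoothTransition.zero_of_nonpos (by linarith)

lemma chi_high {t : ℝ} (h : 2 ≤ t) : chi t = 1 :=
  Real.smoothTransition.one_of_one_le (by linarith)

lemma chi_dhigh {t : ℝ} (h : 2 < t) : deriv chi t = 0 := by
  have h1 : chi =ᶠ[𝓝 t] fun _ => (1 : ℝ) := by
    filter_upwards [lt_mem_nhds h] with s hs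
    exact chi_high hs.le
  rw [h1.deriv_eq]
  simp

lemma chi_bd : ∃ C : ℝ, 0 ≤ C ∧ ∀ t, 0 ≤ t → |deriv chi t| ≤ C := by
  have hc : Continuous (deriv chi) := chi_cd.continuous_deriv le_rfl
  obtain ⟨C, hC⟩ := (isCompact_Icc (a := (0 : ℝ)) (b := 2)).exists_bound_of_continuousOn
    hc.continuousOn
  have hC0 : 0 ≤ C := (norm_nonneg _).trans (hC 0 ⟨le_rfl, by norm_num⟩)
  refine ⟨C, hC0, fun t ht => ?_⟩
  by_cases h2 : t ≤ 2
  · exact hC t ⟨ht, h2⟩
  · rw [chi_dhigh (not_le.1 h2), abs_zero]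
    exact hC0

lemma chi_sub (t : ℝ) : |chi t - 1| ≤ 1 := by
  have h1 : 0 ≤ chi t := Real.smoothTransition.nonneg _
  have h2 : chi t ≤ 1 := Real.smoothTransition.le_one _
  rw [abs_le]
  constructor <;> linarith

/-- the function cut off near `x = 0` -/
noncomputable def cutf (ρ : ℝ) (w : (Fin (a + k) → ℝ) → ℝ) (z : Fin (a + k) → ℝ) : ℝ :=
  chi ((QQ z : Fin (k + 1) → ℝ) 0 / ρ ^ 2) * w z

/-- the derivative of `|x|²` -/
noncomputable def du (j : Fin (a + k)) (z : Fin (a + k) → ℝ) : ℝ :=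
  QQD z (Pi.single j 1) (0 : Fin (k + 1))

lemma cutf_cc {w : (Fin (a + k) → ℝ) → ℝ} (hw : Cc1 w) (ρ : ℝ) : Cc1 (cutf ρ w) := by
  refine ⟨?_, ?_⟩
  · have h1 : ContDiff ℝ 1 fun z : Fin (a + k) → ℝ => (QQ z : Fin (k + 1) → ℝ) 0 / ρ ^ 2 :=
      ((contDiff_pi.1 QQ_cd) 0).div_const _
    exact (chi_cd.comp h1).mul hw.smooth
  · exact hw.supp.mul_left

lemma cutf_pd {w : (Fin (a + k) → ℝ) → ℝ} (hw : Cc1 w) (ρ : ℝ) (j : Fin (a + k))
    (z : Fin (a + k) → ℝ) :
    pd j (cutf ρ w) z - pd j w z =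
      (chi ((QQ z : Fin (k + 1) → ℝ) 0 / ρ ^ 2) - 1) * pd j w z +
        w z * (deriv chi ((QQ z : Fin (k + 1) → ℝ) 0 / ρ ^ 2) * (du j z / ρ ^ 2)) := by
  have h1 : HasFDerivAt (fun z : Fin (a + k) → ℝ => (QQ z : Fin (k + 1) → ℝ) 0)
      ((ContinuousLinearMap.proj (0 : Fin (k + 1))).comp (QQD z)) z :=
    hasFDerivAt_pi'.1 (QQ_fd z) 0
  have h2 : HasFDerivAt (fun z : Fin (a + k) → ℝ => (QQ z : Fin (k + 1) → ℝ) 0 / ρ ^ 2)
      ((ρ ^ 2)⁻¹ • ((ContinuousLinearMap.proj (0 : Fin (k + 1))).comp (QQD z))) z := by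
    simp only [div_eq_mul_inv]
    exact h1.mul_const _
  have h3 : HasDerivAt chi (deriv chi ((QQ z : Fin (k + 1) → ℝ) 0 / ρ ^ 2))
      ((QQ z : Fin (k + 1) → ℝ) 0 / ρ ^ 2) :=
    (chi_cd.differentiable one_ne_zero _).hasDerivAt
  have h4 := h3.comp_hasFDerivAt z h2
  have h5 : HasFDerivAt w (fderiv ℝ w z) z :=
    (hw.smooth.differentiable one_ne_zero _).hasFDerivAt
  have h6 := h4.mul h5
  have h7 : pd j (cutf ρ w) z = fderiv ℝ (cutf ρ w) z (Pi.single j 1) := rfl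
  have h8 : fderiv ℝ (cutf ρ w) z = _ := h6.fderiv
  rw [h7, h8, _root_.add_apply, _root_.smul_apply, _root_.smul_apply, _root_.smul_apply,
    _root_.smul_apply, ContinuousLinearMap.comp_apply]
  simp only [smul_eq_mul, ContinuousLinearMap.proj_apply, Function.comp]
  unfold pd du
  ring

lemma du_bd {ρ : ℝ} (hρ : 0 < ρ) {z : Fin (a + k) → ℝ}
    (hz : ∀ i : Fin a, |z (Fin.castAdd k i)| ≤ 2 * ρ) (j : Fin (a + k)) : |du j z| ≤ 4 * ρ := by
  unfold du
  refine Fin.addCases (fun i => ?_) (fun r => ?_) j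
  · rw [QQD_left]
    simp only [Pi.smul_apply, Pi.single_eq_same, smul_eq_mul, mul_one]
    rw [abs_mul, abs_two]
    have := hz i
    linarith
  · rw [QQD_right]
    rw [Pi.single_apply, if_neg (Fin.succ_ne_zero r).symm, abs_zero]
    positivity

/-- the main estimate -/
lemma cutf_est (ha : 3 ≤ a) {w : (Fin (a + k) → ℝ) → ℝ} (hw : Cc1 w) :
    ∃ K : ℝ, 0 ≤ K ∧ ∀ ρ : ℝ, 0 < ρ → ρ ≤ 1 →
      ∫ z, (cutf ρ w z - w z) ^ 2 ≤ K * ρ ∧
      ∫ z, ∑ j, (pd j (cutf ρ w) z - pd j w z) ^ 2 ≤ K * ρ := by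
  obtain ⟨C, hC0, hC⟩ := chi_bd
  have hcpd : ∀ j, Continuous (pd j w) := fun j =>
    (hw.smooth.continuous_fderiv one_ne_zero).clm_apply continuous_const
  have hspd : ∀ j, HasCompactSupport (pd j w) := fun j => hw.supp.fderiv_apply ℝ _
  obtain ⟨R0, hR00, hR0⟩ := far_of_supp hw.supp
  choose R' hR'0 hR' using fun j => far_of_supp (hspd j)
  obtain ⟨M0, hM0⟩ := hw.smooth.continuous.bounded_above_of_compact_support hw.supp
  choose M' hM' using fun j => (hcpd j).bounded_above_of_compact_support (hspd j)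
  have hM00 : 0 ≤ M0 := (norm_nonneg _).trans (hM0 0)
  have hM'0 : ∀ j, 0 ≤ M' j := fun j => (norm_nonneg _).trans (hM' j 0)
  set R : ℝ := R0 + ∑ j, R' j with hR
  set M : ℝ := M0 + ∑ j, M' j with hM
  have hsR : 0 ≤ ∑ j, R' j := Finset.sum_nonneg fun j _ => (hR'0 j).le
  have hsM : 0 ≤ ∑ j, M' j := Finset.sum_nonneg fun j _ => hM'0 j
  have hRp : 0 < R := by linarith
  have hMp : 0 ≤ M := by linarith
  have hw0 : ∀ z, R < ‖z‖ → w z = 0 := fun z hz => hR0 z (by linarith)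
  have hp0 : ∀ j z, R < ‖z‖ → pd j w z = 0 := fun j z hz => by
    apply hR' j
    have := Finset.single_le_sum (f := R') (fun β _ => (hR'0 β).le) (Finset.mem_univ j)
    linarith
  have hwM : ∀ z, |w z| ≤ M := fun z => (hM0 z).trans (by linarith)
  have hpM : ∀ j z, |pd j w z| ≤ M := fun j z => by
    refine (hM' j z).trans ?_
    have := Finset.single_le_sum (f := M') (fun β _ => hM'0 β) (Finset.mem_univ j)
    linarith
  set D : ℝ := M * (1 + 4 * C) with hD
  have hD0 : 0 ≤ D := by positivity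
  refine ⟨((a : ℝ) + k) * D ^ 2 * (4 ^ a * (2 * R) ^ k), by positivity, fun ρ hρ hρ1 => ?_⟩
  set b : Fin (a + k) → ℝ := Fin.append (fun _ : Fin a => 2 * ρ) (fun _ : Fin k => R) with hb
  have hbl : ∀ i : Fin a, b (Fin.castAdd k i) = 2 * ρ := fun i => by rw [hb, Fin.append_left]
  have hbr : ∀ i : Fin k, b (Fin.natAdd a i) = R := fun i => by rw [hb, Fin.append_right]
  have hb0 : ∀ i, 0 ≤ b i := by
    intro i
    refine Fin.addCases (fun i => ?_) (fun r => ?_) i
    · rw [hbl]; positivity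
    · rw [hbr]; exact hRp.le
  set S : Set (Fin (a + k) → ℝ) := Icc (-b) b with hS
  have hvol : (volume S).toReal = (4 * ρ) ^ a * (2 * R) ^ k := by
    rw [hS, Real.volume_Icc_pi_toReal (fun i => by simpa using (hb0 i)), Fin.prod_univ_add]
    simp only [Pi.neg_apply, hbl, hbr, Finset.prod_const, Finset.card_univ, Fintype.card_fin]
    congr 2 <;> ring
  -- outside `S` everything vanishes
  have hout : ∀ z, z ∉ S → (cutf ρ w z - w z = 0) ∧ ∀ j, pd j (cutf ρ w) z - pd j w z = 0 := by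
    intro z hz
    have hz' : ∃ i, b i < |z i| := by
      by_contra hcon
      push Not at hcon
      exact hz ⟨fun i => (abs_le.1 (hcon i)).1, fun i => (abs_le.1 (hcon i)).2⟩
    obtain ⟨i, hi⟩ := hz'
    revert hi
    refine Fin.addCases (fun i hi => ?_) (fun r hi => ?_) i
    · rw [hbl] at hi
      have h1 : 4 * ρ ^ 2 < (QQ z : Fin (k + 1) → ℝ) 0 := by
        have h2 : (QQ z : Fin (k + 1) → ℝ) 0 = ∑ i : Fin a, z (Fin.castAdd k i) ^ 2 := rfl
        rw [h2]
        have h3 : z (Fin.castAdd k i) ^ 2 ≤ ∑ i : Fin a, z (Fin.castAdd k i) ^ 2 :=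
          Finset.single_le_sum (f := fun i : Fin a => z (Fin.castAdd k i) ^ 2)
            (fun i _ => sq_nonneg _) (Finset.mem_univ i)
        have h4 : (2 * ρ) ^ 2 < z (Fin.castAdd k i) ^ 2 := by
          rw [← sq_abs (z (Fin.castAdd k i))]
          exact pow_lt_pow_left₀ hi (by positivity) two_ne_zero
        nlinarith
      have h5 : 2 < (QQ z : Fin (k + 1) → ℝ) 0 / ρ ^ 2 := by
        rw [lt_div_iff₀ (by positivity)]
        nlinarith [sq_nonneg ρ]
      refine ⟨?_, fun j => ?_⟩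
      · unfold cutf
        rw [chi_high h5.le, one_mul, sub_self]
      · rw [cutf_pd hw, chi_high h5.le, chi_dhigh h5]
        ring
    · rw [hbr] at hi
      have h1 : R < ‖z‖ := lt_of_lt_of_le hi (norm_le_pi_norm z _)
      refine ⟨?_, fun j => ?_⟩
      · unfold cutf
        rw [hw0 z h1]; ring
      · rw [cutf_pd hw, hw0 z h1, hp0 j z h1]
        ring
  have hρi : 1 ≤ 1 / ρ := by rw [le_div_iff₀ hρ]; linarith
  have hin0 : ∀ z, |cutf ρ w z - w z| ≤ D / ρ := by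
    intro z
    have h1 : cutf ρ w z - w z = (chi ((QQ z : Fin (k + 1) → ℝ) 0 / ρ ^ 2) - 1) * w z := by
      unfold cutf; ring
    rw [h1, abs_mul]
    have h2 := chi_sub ((QQ z : Fin (k + 1) → ℝ) 0 / ρ ^ 2)
    have h3 := hwM z
    have h4 : |chi ((QQ z : Fin (k + 1) → ℝ) 0 / ρ ^ 2) - 1| * |w z| ≤ 1 * M :=
      mul_le_mul h2 h3 (abs_nonneg _) zero_le_one
    have h5 : D / ρ = D * (1 / ρ) := by ring
    rw [h5]
    have h6 : D * 1 ≤ D * (1 / ρ) := mul_le_mul_of_nonneg_left hρi hD0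
    have h7 : M ≤ D := by rw [hD]; nlinarith
    linarith
  have hin1 : ∀ z ∈ S, ∀ j, |pd j (cutf ρ w) z - pd j w z| ≤ D / ρ := by
    intro z hz j
    rw [cutf_pd hw]
    have h1 : |(chi ((QQ z : Fin (k + 1) → ℝ) 0 / ρ ^ 2) - 1) * pd j w z| ≤ 1 * M := by
      rw [abs_mul]
      exact mul_le_mul (chi_sub _) (hpM j z) (abs_nonneg _) zero_le_one
    have h2 : |du j z| ≤ 4 * ρ := by
      apply du_bd hρ
      intro i
      have h3 := hz.1 (Fin.castAdd k i)
      have h4 := hz.2 (Fin.castAdd k i)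
      rw [Pi.neg_apply, hbl] at h3
      rw [hbl] at h4
      exact abs_le.2 ⟨h3, h4⟩
    have h3 : |w z * (deriv chi ((QQ z : Fin (k + 1) → ℝ) 0 / ρ ^ 2) * (du j z / ρ ^ 2))| ≤
        M * (C * (4 / ρ)) := by
      rw [abs_mul, abs_mul]
      have hq : 0 ≤ (QQ z : Fin (k + 1) → ℝ) 0 / ρ ^ 2 := by
        apply div_nonneg _ (by positivity)
        have h2 : (QQ z : Fin (k + 1) → ℝ) 0 = ∑ i : Fin a, z (Fin.castAdd k i) ^ 2 := rfl
        rw [h2]
        exact Finset.sum_nonneg fun i _ => sq_nonneg _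
      have h5 : |du j z / ρ ^ 2| ≤ 4 / ρ := by
        rw [abs_div, abs_of_pos (by positivity : 0 < ρ ^ 2), div_le_div_iff₀ (by positivity) hρ]
        nlinarith
      exact mul_le_mul (hwM z) (mul_le_mul (hC _ hq) h5 (abs_nonneg _) hC0)
        (by positivity) hMp
    refine (abs_add_le _ _).trans ((add_le_add h1 h3).trans ?_)
    have h5 : D / ρ = M * (1 / ρ) + M * (C * (4 / ρ)) := by rw [hD]; ring
    rw [h5]
    have h6 : M * 1 ≤ M * (1 / ρ) := mul_le_mul_of_nonneg_left hρi hMp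
    linarith
  -- the integral of a function bounded by a constant on `S`
  have hint : ∀ f : (Fin (a + k) → ℝ) → ℝ, (∀ z, 0 ≤ f z) → (∀ z, z ∉ S → f z = 0) →
      (∀ z ∈ S, f z ≤ ((a : ℝ) + k) * (D / ρ) ^ 2) →
      ∫ z, f z ≤ ((a : ℝ) + k) * D ^ 2 * (4 ^ a * (2 * R) ^ k) * ρ := by
    intro f hf0 hf1 hf2
    have hSm : MeasurableSet S := measurableSet_Icc
    have hSf : volume S ≠ ⊤ := isCompact_Icc.measure_lt_top.ne
    have h1 : ∫ z, f z ≤ ∫ z, S.indicator (fun _ => ((a : ℝ) + k) * (D / ρ) ^ 2) z := by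
      apply integral_mono_of_nonneg (Filter.Eventually.of_forall hf0)
      · rw [integrable_indicator_iff hSm]
        exact integrableOn_const hSf
      · refine Filter.Eventually.of_forall fun z => ?_
        by_cases hz : z ∈ S
        · simp only [indicator_of_mem hz]
          exact hf2 z hz
        · simp only [indicator_of_notMem hz]
          rw [hf1 z hz]
    refine h1.trans ?_
    rw [integral_indicator_const _ hSm, Measure.real, hvol, smul_eq_mul]
    have h2 : (4 * ρ) ^ a * (2 * R) ^ k * (((a : ℝ) + k) * (D / ρ) ^ 2) =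
        ((a : ℝ) + k) * D ^ 2 * (4 ^ a * (2 * R) ^ k) * (ρ ^ a / ρ ^ 2) := by
      rw [mul_pow, div_pow]
      ring
    rw [h2]
    apply mul_le_mul_of_nonneg_left _ (by positivity)
    rw [div_le_iff₀ (by positivity)]
    have h3 : ρ ^ a ≤ ρ ^ 3 := pow_le_pow_of_le_one hρ.le hρ1 ha
    calc ρ ^ a ≤ ρ ^ 3 := h3
      _ = ρ * ρ ^ 2 := by ring
  have hak : (1 : ℝ) ≤ (a : ℝ) + k := by
    have : (3 : ℝ) ≤ a := by exact_mod_cast ha
    have : (0 : ℝ) ≤ k := by positivity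
    linarith
  constructor
  · apply hint
    · intro z; positivity
    · intro z hz
      rw [(hout z hz).1]
      norm_num
    · intro z _
      have h1 : (cutf ρ w z - w z) ^ 2 ≤ (D / ρ) ^ 2 := by
        rw [← sq_abs (cutf ρ w z - w z)]
        exact pow_le_pow_left₀ (abs_nonneg _) (hin0 z) 2
      have h2 : (0 : ℝ) ≤ (D / ρ) ^ 2 := by positivity
      nlinarith
  · apply hint
    · intro z
      exact Finset.sum_nonneg fun j _ => sq_nonneg _
    · intro z hz
      apply Finset.sum_eq_zero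
      intro j _
      rw [(hout z hz).2 j]
      norm_num
    · intro z hz
      have h1 : ∀ j, (pd j (cutf ρ w) z - pd j w z) ^ 2 ≤ (D / ρ) ^ 2 := by
        intro j
        rw [← sq_abs (pd j (cutf ρ w) z - pd j w z)]
        exact pow_le_pow_left₀ (abs_nonneg _) (hin1 z hz j) 2
      refine (Finset.sum_le_sum fun j _ => h1 j).trans ?_
      rw [Finset.sum_const, Finset.card_univ, Fintype.card_fin, nsmul_eq_mul]
      push_cast
      exact le_rfl

theorem s_CUT : S_CUT := by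
  intro a k N ha w hw ε hε
  choose K hK0 hK using fun n => cutf_est ha (hw n)
  set T : ℝ := ∑ n, K n with hT
  have hT0 : 0 ≤ T := Finset.sum_nonneg fun n _ => hK0 n
  set ρ : ℝ := min 1 (ε / (T + 1)) with hρ
  have hρ0 : 0 < ρ := lt_min one_pos (by positivity)
  have hρ1 : ρ ≤ 1 := min_le_left _ _
  have hKρ : ∀ n, K n * ρ ≤ ε := by
    intro n
    have h1 : K n ≤ T := Finset.single_le_sum (f := K) (fun β _ => hK0 β) (Finset.mem_univ n)
    have h2 : ρ ≤ ε / (T + 1) := min_le_right _ _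
    have h3 : K n * ρ ≤ (T + 1) * (ε / (T + 1)) :=
      mul_le_mul (by linarith) h2 hρ0.le (by linarith)
    rwa [mul_div_cancel₀ _ (by positivity : (T + 1) ≠ 0)] at h3
  refine ⟨fun n => cutf ρ (w n), fun n => cutf_cc (hw n) ρ, ⟨ρ ^ 2, by positivity, ?_⟩, ?_⟩
  · intro n z hz
    show cutf ρ (w n) z = 0
    unfold cutf
    rw [chi_low, zero_mul]
    rw [div_le_one (by positivity)]
    exact hz
  · intro n
    exact ⟨((hK n ρ hρ0 hρ1).1).trans (hKρ n), ((hK n ρ hρ0 hρ1).2).trans (hKρ n)⟩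

end Pool.Agent.L7h76.RA
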