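import Mathlib
import Pool.Agent.L7h98.RA.Stm
import Pool.Agent.L7h76.RA.Ener

/-!
Regularity, products and energy of sums of profiles times spherical harmonics (part `S_ENER` of the
project RA), second file.
-/

set_option autoImplicit false

open MeasureTheory Set Filter Topology
open scoped ENNReal

namespace Pool.Agent.L7h76.RA

open LTd (pd)
open Pool.Agent.L7h98.RA Pool.Agent.R117.RL Pool.Agent.N537.RS Pool.Agent.N537.RS.HS

variable {a k : ℕ}

/-! ### products -/

lemma collapse {B : ℕ} (X : Fin B → Fin B → ℝ) :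
    ∑ α, ∑ β, (if α = β then (1 : ℝ) else 0) * X α β = ∑ α, X α α := by
  apply Finset.sum_congr rfl
  intro α _
  rw [Finset.sum_eq_single α]
  · rw [if_pos rfl, one_mul]
  · intro β _ hβ
    rw [if_neg (Ne.symm hβ), zero_mul]
  · intro h
    exact absurd (Finset.mem_univ α) h

lemma ww_sq {B : ℕ} (Y : Fin B → MvPolynomial (Fin a) ℝ) (G : Fin B → (Fin (k + 1) → ℝ) → ℝ)
    (V : (Fin (k + 1) → ℝ) → ℝ) (z : Fin (a + k) → ℝ) :
    V (QQ z) * ww Y G z ^ 2 = ∑ α, ∑ β,
      (fun s => V s * (G α s * G β s)) (QQ z) * evl (Y α * Y β) (xx z) := by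
  unfold ww
  rw [_root_.sq, Finset.sum_mul_sum, Finset.mul_sum]
  apply Finset.sum_congr rfl
  intro α _
  rw [Finset.mul_sum]
  apply Finset.sum_congr rfl
  intro β _
  rw [evl_mul]
  ring

theorem ener_prod (ha : 3 ≤ a) {B : ℕ} {l : Fin B → ℕ} {Y : Fin B → MvPolynomial (Fin a) ℝ}
    (hY : HFam a B l Y) {G : Fin B → (Fin (k + 1) → ℝ) → ℝ} (hG : ∀ α, Prf (G α))
    {V : (Fin (k + 1) → ℝ) → ℝ} (hV : Measurable V) (hb : ∃ C : ℝ, ∀ s, |V s| ≤ C) :
    ∫ z, V (QQ z) * ww Y G z ^ 2 =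
      ∑ α, ∫ s : Fin (k + 1) → ℝ, Real.exp (2 * s 0) * V (ee s) * ph a (l α) (G α) s ^ 2 := by
  have ha1 : 1 ≤ a := by omega
  have hok : ∀ α β, Ok fun s => V s * (G α s * G β s) := fun α β =>
    ((prf_ok (hG β)).mul_ok (prf_ok (hG α))).mul hV hb
  have hpol := fun α β => (hok α β).pol (a := a) ha1 ((hY.hom α).mul (hY.hom β))
  simp only [ww_sq]
  rw [integral_finsetSum _ fun α _ => integrable_finsetSum _ fun β _ => (hpol α β).1]
  have h1 : ∀ α, ∫ z : Fin (a + k) → ℝ, ∑ β,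
      (fun s => V s * (G α s * G β s)) (QQ z) * evl (Y α * Y β) (xx z) =
      ∑ β, (if α = β then (1 : ℝ) else 0) * ∫ s : Fin (k + 1) → ℝ,
        Real.exp (((l α + l β : ℕ) + a) * s 0) * (V (ee s) * (G α (ee s) * G β (ee s))) := by
    intro α
    rw [integral_finsetSum _ fun β _ => (hpol α β).1]
    apply Finset.sum_congr rfl
    intro β _
    rw [(hpol α β).2, hY.orth]
  simp only [h1]
  rw [collapse]
  apply Finset.sum_congr rfl
  intro α _
  apply integral_congr_ae
  refine Filter.Eventually.of_forall fun s => ?_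
  simp only [ph]
  have h2 : Real.exp (((l α + l α : ℕ) + a) * s 0) = Real.exp (2 * s 0) *
      (Real.exp (((l α : ℝ) + ((a : ℝ) - 2) / 2) * s 0)) ^ 2 := by
    rw [← Real.exp_nat_mul, ← Real.exp_add]
    congr 1
    push_cast
    ring
  rw [h2]
  ring

/-! ### derivatives of `ww` -/

lemma ww_fd {B : ℕ} (Y : Fin B → MvPolynomial (Fin a) ℝ) {G : Fin B → (Fin (k + 1) → ℝ) → ℝ}
    (hG : ∀ α, Prf (G α)) (z : Fin (a + k) → ℝ) :
    HasFDerivAt (ww Y G : (Fin (a + k) → ℝ) → ℝ)
      (∑ α, (G α (QQ z) • fderiv ℝ (fun z : Fin (a + k) → ℝ => evl (Y α) (xx z)) z +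
        evl (Y α) (xx z) • (fderiv ℝ (G α) (QQ z)).comp (QQD z))) z := by
  unfold ww
  apply HasFDerivAt.fun_sum
  intro α _
  have h4 : HasFDerivAt (G α) (fderiv ℝ (G α) (QQ z)) (QQ z) :=
    ((hG α).cc.smooth.differentiable one_ne_zero _).hasFDerivAt
  have h5 : HasFDerivAt (fun z : Fin (a + k) → ℝ => evl (Y α) (xx z))
      (fderiv ℝ (fun z : Fin (a + k) → ℝ => evl (Y α) (xx z)) z) z :=
    (evl_xx_fd (Y α) z).differentiableAt.hasFDerivAt
  exact (h4.comp z (QQ_fd z)).mul h5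

lemma ww_pd_left {B : ℕ} (Y : Fin B → MvPolynomial (Fin a) ℝ)
    {G : Fin B → (Fin (k + 1) → ℝ) → ℝ} (hG : ∀ α, Prf (G α)) (z : Fin (a + k) → ℝ)
    (i : Fin a) :
    pd (Fin.castAdd k i) (ww Y G) z = ∑ α, (2 * z (Fin.castAdd k i) * pd 0 (G α) (QQ z) *
      evl (Y α) (xx z) + G α (QQ z) * evl (MvPolynomial.pderiv i (Y α)) (xx z)) := by
  have h1 : pd (Fin.castAdd k i) (ww Y G) z =
      fderiv ℝ (ww Y G) z (Pi.single (Fin.castAdd k i) 1) := rfl
  rw [h1, (ww_fd Y hG z).fderiv, _root_.sum_apply]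
  apply Finset.sum_congr rfl
  intro α _
  rw [_root_.add_apply, _root_.smul_apply, _root_.smul_apply, evl_xx_pd,
    ContinuousLinearMap.comp_apply, QQD_left, map_smul, smul_eq_mul, smul_eq_mul, smul_eq_mul]
  unfold pd
  ring

lemma ww_pd_right {B : ℕ} (Y : Fin B → MvPolynomial (Fin a) ℝ)
    {G : Fin B → (Fin (k + 1) → ℝ) → ℝ} (hG : ∀ α, Prf (G α)) (z : Fin (a + k) → ℝ)
    (r : Fin k) :
    pd (Fin.natAdd a r) (ww Y G) z = ∑ α, pd r.succ (G α) (QQ z) * evl (Y α) (xx z) := by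
  have h1 : pd (Fin.natAdd a r) (ww Y G) z =
      fderiv ℝ (ww Y G) z (Pi.single (Fin.natAdd a r) 1) := rfl
  rw [h1, (ww_fd Y hG z).fderiv, _root_.sum_apply]
  apply Finset.sum_congr rfl
  intro α _
  rw [_root_.add_apply, _root_.smul_apply, _root_.smul_apply, evl_xx_pd',
    ContinuousLinearMap.comp_apply, QQD_right, smul_eq_mul, smul_eq_mul]
  unfold pd
  ring

/-! ### the energy density -/

/-- the coefficient functions of the products of spherical harmonics -/
noncomputable def F13 {B : ℕ} (l : Fin B → ℕ) (G : Fin B → (Fin (k + 1) → ℝ) → ℝ) (α β : Fin B)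
    (s : Fin (k + 1) → ℝ) : ℝ :=
  (4 * (s 0 * (pd 0 (G α) s * pd 0 (G β) s)) + (2 * l β * (pd 0 (G α) s * G β s) +
    2 * l α * (G α s * pd 0 (G β) s))) + ∑ r : Fin k, pd r.succ (G α) s * pd r.succ (G β) s

/-- the products of gradients -/
noncomputable def qq {B : ℕ} (Y : Fin B → MvPolynomial (Fin a) ℝ) (α β : Fin B) :
    MvPolynomial (Fin a) ℝ :=
  ∑ i, MvPolynomial.pderiv i (Y α) * MvPolynomial.pderiv i (Y β)

lemma Ok.sum {ι : Type} (t : Finset ι) {F : ι → (Fin (k + 1) → ℝ) → ℝ} (h : ∀ i ∈ t, Ok (F i)) :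
    Ok fun s => ∑ i ∈ t, F i s := by
  classical
  induction t using Finset.induction_on with
  | empty =>
    simp only [Finset.sum_empty]
    exact ⟨measurable_const, ⟨0, le_rfl, fun _ => by simp⟩, ⟨1, one_pos, fun _ _ => rfl⟩,
      ⟨1, one_pos, fun _ _ => rfl⟩⟩
  | insert i t hi ih =>
    simp only [Finset.sum_insert hi]
    exact (h i (Finset.mem_insert_self i t)).add
      (ih fun j hj => h j (Finset.mem_insert_of_mem hj))

lemma F13_ok {B : ℕ} (l : Fin B → ℕ) {G : Fin B → (Fin (k + 1) → ℝ) → ℝ} (hG : ∀ α, Prf (G α))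
    (α β : Fin B) : Ok (F13 l G α β) := by
  have h1 := prf_ok (hG α)
  have h2 := prf_ok (hG β)
  have d1 := fun j => prf_pd_ok (hG α) j
  have d2 := fun j => prf_pd_ok (hG β) j
  exact (((((d2 0).mul_ok (d1 0)).coord).const 4).add (((h2.mul_ok (d1 0)).const (2 * l β)).add
    (((d2 0).mul_ok h1).const (2 * l α)))).add
    (Ok.sum Finset.univ fun r _ => (d2 r.succ).mul_ok (d1 r.succ))

lemma euler_evl {n : ℕ} {p : MvPolynomial (Fin a) ℝ} (hp : p.IsHomogeneous n)
    (z : Fin (a + k) → ℝ) :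
    ∑ i : Fin a, z (Fin.castAdd k i) * evl (MvPolynomial.pderiv i p) (xx z) =
      n * evl p (xx z) := by
  have h1 := congrArg (fun q => evl q (xx z : E a)) hp.sum_X_mul_pderiv
  simp only [evl_sum, evl_mul] at h1
  have h2 : evl (n • p) (xx z : E a) = n * evl p (xx z) := by
    rw [← Nat.cast_smul_eq_nsmul ℝ, evl_smul]
  rw [← h2, ← h1]
  apply Finset.sum_congr rfl
  intro i _
  congr 1
  simp [evl, xx]

lemma dens_eq {B : ℕ} {l : Fin B → ℕ} {Y : Fin B → MvPolynomial (Fin a) ℝ}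
    (hY : HFam a B l Y) {G : Fin B → (Fin (k + 1) → ℝ) → ℝ} (hG : ∀ α, Prf (G α))
    (z : Fin (a + k) → ℝ) :
    ∑ j, pd j (ww Y G) z ^ 2 = ∑ α, ∑ β,
      (F13 l G α β (QQ z) * evl (Y α * Y β) (xx z) +
        (fun s => G α s * G β s) (QQ z) * evl (qq Y α β) (xx z)) := by
  rw [Fin.sum_univ_add]
  simp only [ww_pd_left Y hG, ww_pd_right Y hG, _root_.sq, Finset.sum_mul_sum]
  have e1 : ∑ i : Fin a, ∑ α, ∑ β, (2 * z (Fin.castAdd k i) * pd 0 (G α) (QQ z) *
      evl (Y α) (xx z) + G α (QQ z) * evl (MvPolynomial.pderiv i (Y α)) (xx z)) *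
      (2 * z (Fin.castAdd k i) * pd 0 (G β) (QQ z) *
      evl (Y β) (xx z) + G β (QQ z) * evl (MvPolynomial.pderiv i (Y β)) (xx z)) =
      ∑ α, ∑ β, ∑ i : Fin a, (2 * z (Fin.castAdd k i) * pd 0 (G α) (QQ z) *
      evl (Y α) (xx z) + G α (QQ z) * evl (MvPolynomial.pderiv i (Y α)) (xx z)) *
      (2 * z (Fin.castAdd k i) * pd 0 (G β) (QQ z) *
      evl (Y β) (xx z) + G β (QQ z) * evl (MvPolynomial.pderiv i (Y β)) (xx z)) := by
    rw [Finset.sum_comm]
    apply Finset.sum_congr rfl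
    intro α _
    rw [Finset.sum_comm]
  have e2 : ∑ r : Fin k, ∑ α, ∑ β, pd r.succ (G α) (QQ z) * evl (Y α) (xx z) *
      (pd r.succ (G β) (QQ z) * evl (Y β) (xx z)) =
      ∑ α, ∑ β, ∑ r : Fin k, pd r.succ (G α) (QQ z) * evl (Y α) (xx z) *
      (pd r.succ (G β) (QQ z) * evl (Y β) (xx z)) := by
    rw [Finset.sum_comm]
    apply Finset.sum_congr rfl
    intro α _
    rw [Finset.sum_comm]
  rw [e1, e2, ← Finset.sum_add_distrib]
  apply Finset.sum_congr rfl
  intro α _
  rw [← Finset.sum_add_distrib]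
  apply Finset.sum_congr rfl
  intro β _
  have hQ : (QQ z : Fin (k + 1) → ℝ) 0 = ∑ i : Fin a, z (Fin.castAdd k i) * z (Fin.castAdd k i) := by
    have : (QQ z : Fin (k + 1) → ℝ) 0 = ∑ i : Fin a, z (Fin.castAdd k i) ^ 2 := rfl
    rw [this]
    apply Finset.sum_congr rfl
    intro i _
    ring
  have eα := euler_evl (hY.hom α) z
  have eβ := euler_evl (hY.hom β) z
  have hq : evl (qq Y α β) (xx z : E a) = ∑ i, evl (MvPolynomial.pderiv i (Y α)) (xx z) *
      evl (MvPolynomial.pderiv i (Y β)) (xx z) := by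
    unfold qq
    rw [evl_sum]
    simp only [evl_mul]
  unfold F13
  rw [hq, evl_mul, hQ]
  have hl : ∑ i : Fin a, (2 * z (Fin.castAdd k i) * pd 0 (G α) (QQ z) *
      evl (Y α) (xx z) + G α (QQ z) * evl (MvPolynomial.pderiv i (Y α)) (xx z)) *
      (2 * z (Fin.castAdd k i) * pd 0 (G β) (QQ z) *
      evl (Y β) (xx z) + G β (QQ z) * evl (MvPolynomial.pderiv i (Y β)) (xx z)) =
      4 * (∑ i : Fin a, z (Fin.castAdd k i) * z (Fin.castAdd k i)) * (pd 0 (G α) (QQ z) *
        pd 0 (G β) (QQ z)) * (evl (Y α) (xx z) * evl (Y β) (xx z)) +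
      2 * pd 0 (G α) (QQ z) * G β (QQ z) * evl (Y α) (xx z) *
        (∑ i : Fin a, z (Fin.castAdd k i) * evl (MvPolynomial.pderiv i (Y β)) (xx z)) +
      2 * pd 0 (G β) (QQ z) * G α (QQ z) * evl (Y β) (xx z) *
        (∑ i : Fin a, z (Fin.castAdd k i) * evl (MvPolynomial.pderiv i (Y α)) (xx z)) +
      G α (QQ z) * G β (QQ z) * ∑ i, evl (MvPolynomial.pderiv i (Y α)) (xx z) *
        evl (MvPolynomial.pderiv i (Y β)) (xx z) := by
    simp only [Finset.mul_sum, Finset.sum_mul, ← Finset.sum_add_distrib]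
    apply Finset.sum_congr rfl
    intro i _
    ring
  have hr : ∑ r : Fin k, pd r.succ (G α) (QQ z) * evl (Y α) (xx z) *
      (pd r.succ (G β) (QQ z) * evl (Y β) (xx z)) =
      (∑ r : Fin k, pd r.succ (G α) (QQ z) * pd r.succ (G β) (QQ z)) *
        (evl (Y α) (xx z) * evl (Y β) (xx z)) := by
    rw [Finset.sum_mul]
    apply Finset.sum_congr rfl
    intro r _
    ring
  rw [hl, hr, eα, eβ]
  ring

/-- the integral of a derivative vanishes -/
lemma int_pd_zero {n : ℕ} {h : (Fin n → ℝ) → ℝ} (hh : Cc1 h) (j : Fin n) :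
    ∫ s, pd j h s = 0 := by
  have hc : Continuous (pd j h) :=
    (hh.smooth.continuous_fderiv one_ne_zero).clm_apply continuous_const
  have hs : HasCompactSupport (pd j h) := hh.supp.fderiv_apply ℝ _
  have i1 : Integrable (fun x => (fderiv ℝ h x) (Pi.single j 1)) :=
    hc.integrable_of_hasCompactSupport hs
  have i2 : Integrable h := hh.smooth.continuous.integrable_of_hasCompactSupport hh.supp
  have h1 := integral_mul_fderiv_eq_neg_fderiv_mul_of_integrable (μ := (volume : Measure (Fin n → ℝ)))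
    (f := fun _ : Fin n → ℝ => (1 : ℝ)) (g := h) (v := Pi.single j 1)
    (by simp) (by simpa using i1) (by simpa using i2)
    (fun x _ => differentiableAt_const _)
    (fun x _ => (hh.smooth.differentiable one_ne_zero) x)
  simpa [pd] using h1

theorem s_ENER : S_ENER := by
  intro a k ha B l Y hY G hG
  have ha1 : 1 ≤ a := by omega
  refine ⟨ww_cc Y fun α => (hG α).cc, fun α => ph_cc a (l α) (hG α),
    fun V hV hb => ener_prod ha hY hG hV hb, ?_⟩
  -- the energy
  have p1 := fun α β => (F13_ok l hG α β).pol (a := a) ha1 ((hY.hom α).mul (hY.hom β))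
  have hqh : ∀ α β, (qq Y α β).IsHomogeneous ((l α - 1) + (l β - 1)) := by
    intro α β
    apply MvPolynomial.IsHomogeneous.sum
    intro i _
    exact (hY.hom α).pderiv.mul (hY.hom β).pderiv
  have p2 := fun α β => ((prf_ok (hG β)).mul_ok (prf_ok (hG α))).pol (a := a) ha1 (hqh α β)
  have hqc : ∀ α β, cS (qq Y α β) = (if α = β then (1 : ℝ) else 0) *
      ((l α : ℝ) * (2 * l α + a - 2)) := by
    intro α β
    unfold qq
    rw [cS_sum, s_GRAD a ha1 B l Y hY α β]
    by_cases h : α = β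
    · rw [if_pos h, if_pos h, one_mul]
    · rw [if_neg h, if_neg h, zero_mul]
  simp only [dens_eq hY hG]
  have hi : ∀ α β, Integrable (fun z : Fin (a + k) → ℝ =>
      F13 l G α β (QQ z) * evl (Y α * Y β) (xx z) +
        G α (QQ z) * G β (QQ z) * evl (qq Y α β) (xx z)) := fun α β =>
    (p1 α β).1.add (p2 α β).1
  have hi2 : ∀ α, Integrable (fun z : Fin (a + k) → ℝ => ∑ β,
      (F13 l G α β (QQ z) * evl (Y α * Y β) (xx z) +
        G α (QQ z) * G β (QQ z) * evl (qq Y α β) (xx z))) := fun α =>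
    integrable_finsetSum _ fun β _ => hi α β
  rw [integral_finsetSum _ fun α _ => hi2 α]
  have h1 : ∀ α, ∫ z : Fin (a + k) → ℝ, ∑ β,
      (F13 l G α β (QQ z) * evl (Y α * Y β) (xx z) +
        G α (QQ z) * G β (QQ z) * evl (qq Y α β) (xx z)) =
      ∑ β, (if α = β then (1 : ℝ) else 0) * ((∫ s : Fin (k + 1) → ℝ,
        Real.exp (((l α + l β : ℕ) + a) * s 0) * F13 l G α β (ee s)) +
        ((l α : ℝ) * (2 * l α + a - 2)) * ∫ s : Fin (k + 1) → ℝ,
        Real.exp ((((l α - 1) + (l β - 1) : ℕ) + a) * s 0) * (G α (ee s) * G β (ee s))) := by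
    intro α
    rw [integral_finsetSum _ fun β _ => hi α β]
    apply Finset.sum_congr rfl
    intro β _
    have h2 : ∫ z : Fin (a + k) → ℝ, (F13 l G α β (QQ z) * evl (Y α * Y β) (xx z) +
        G α (QQ z) * G β (QQ z) * evl (qq Y α β) (xx z)) =
        (∫ z : Fin (a + k) → ℝ, F13 l G α β (QQ z) * evl (Y α * Y β) (xx z)) +
        ∫ z : Fin (a + k) → ℝ, (fun s => G α s * G β s) (QQ z) * evl (qq Y α β) (xx z) :=
      integral_add (p1 α β).1 (p2 α β).1
    rw [h2, (p1 α β).2, (p2 α β).2, hY.orth, hqc]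
    ring
  simp only [h1]
  rw [collapse]
  apply Finset.sum_congr rfl
  intro α _
  set c : ℝ := (l α : ℝ) + ((a : ℝ) - 2) / 2 with hc
  have hph := ph_cc a (l α) (hG α)
  set φ := ph a (l α) (G α) with hφ
  -- the term with the vanishing integral
  have hsq : Cc1 fun s => φ s ^ 2 := by
    refine ⟨hph.smooth.pow 2, ?_⟩
    have h3 : (fun s => φ s ^ 2) = φ * φ := by
      funext s
      rw [Pi.mul_apply, _root_.sq]
    rw [h3]
    exact hph.supp.mul_right
  have hcphi : Continuous φ := hph.smooth.continuous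
  have hcpd : ∀ j, Continuous (pd j φ) := fun j =>
    (hph.smooth.continuous_fderiv one_ne_zero).clm_apply continuous_const
  have hspd : ∀ j, HasCompactSupport (pd j φ) := fun j => hph.supp.fderiv_apply ℝ _
  have hpdsq : ∀ s, pd 0 (fun s => φ s ^ 2) s = 2 * (φ s * pd 0 φ s) := by
    intro s
    have h4 : HasFDerivAt φ (fderiv ℝ φ s) s :=
      (hph.smooth.differentiable one_ne_zero _).hasFDerivAt
    have h5 := h4.pow 2
    have h6 : pd 0 (fun s => φ s ^ 2) s = fderiv ℝ (fun s => φ s ^ 2) s (Pi.single 0 1) := rfl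
    have h7 : pd 0 φ s = fderiv ℝ φ s (Pi.single 0 1) := rfl
    rw [h6, h5.fderiv, h7]
    simp
    ring
  have hz := int_pd_zero hsq 0
  simp only [hpdsq] at hz
  -- integrability
  have i1 : Integrable fun s => eW φ s := by
    apply Continuous.integrable_of_hasCompactSupport
    · unfold eW
      have : Continuous fun s : Fin (k + 1) → ℝ => Real.exp (2 * s 0) := by fun_prop
      exact ((hcpd 0).pow 2).add (this.mul (continuous_finsetSum _ fun r _ =>
        (hcpd r.succ).pow 2))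
    · obtain ⟨R, hR0, hR⟩ := far_of_supp hph.supp
      choose R' hR0' hR' using fun j => far_of_supp (hspd j)
      set M : ℝ := ∑ j, R' j
      apply HasCompactSupport.intro (isCompact_closedBall (0 : Fin (k + 1) → ℝ) M)
      intro s hs
      rw [mem_closedBall_zero_iff, not_le] at hs
      have h8 : ∀ j, pd j φ s = 0 := by
        intro j
        apply hR'
        exact lt_of_le_of_lt (Finset.single_le_sum (f := R') (fun β _ => (hR0' β).le)
          (Finset.mem_univ j)) hs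
      unfold eW
      simp [h8]
  have i2 : Integrable fun s => φ s ^ 2 :=
    hsq.smooth.continuous.integrable_of_hasCompactSupport hsq.supp
  have i3 : Integrable fun s => 2 * (φ s * pd 0 φ s) := by
    apply Integrable.const_mul
    apply Continuous.integrable_of_hasCompactSupport (hcphi.mul (hcpd 0))
    exact hph.supp.mul_right
  have i4 : Integrable fun s : Fin (k + 1) → ℝ =>
      Real.exp (((l α + l α : ℕ) + a) * s 0) * F13 l G α α (ee s) := (F13_ok l hG α α).int _
  have i5 : Integrable fun s : Fin (k + 1) → ℝ =>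
      Real.exp ((2 * c) * s 0) * (G α (ee s) * G α (ee s)) :=
    ((prf_ok (hG α)).mul_ok (prf_ok (hG α))).int _
  -- the second term
  have hsec : ((l α : ℝ) * (2 * l α + a - 2)) * ∫ s : Fin (k + 1) → ℝ,
        Real.exp ((((l α - 1) + (l α - 1) : ℕ) + a) * s 0) * (G α (ee s) * G α (ee s)) =
      ((l α : ℝ) * (2 * l α + a - 2)) * ∫ s : Fin (k + 1) → ℝ,
        Real.exp ((2 * c) * s 0) * (G α (ee s) * G α (ee s)) := by
    rcases Nat.eq_zero_or_pos (l α) with h0 | h0
    · rw [h0]; simp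
    · congr 2
      funext s
      congr 3
      rw [hc]
      push_cast [Nat.cast_sub h0]
      ring
  rw [hsec]
  have hpt : ∀ s : Fin (k + 1) → ℝ, eW φ s + c ^ 2 * φ s ^ 2 -
      (c - l α) * (2 * (φ s * pd 0 φ s)) =
      Real.exp (((l α + l α : ℕ) + a) * s 0) * F13 l G α α (ee s) +
        ((l α : ℝ) * (2 * l α + a - 2)) * (Real.exp ((2 * c) * s 0) *
          (G α (ee s) * G α (ee s))) := by
    intro s
    have g1 : Real.exp (((l α + l α : ℕ) + a) * s 0) = Real.exp (c * s 0) ^ 2 *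
        Real.exp (2 * s 0) := by
      rw [← Real.exp_nat_mul, ← Real.exp_add, hc]
      congr 1
      push_cast
      ring
    have g2 : Real.exp ((2 * c) * s 0) = Real.exp (c * s 0) ^ 2 := by
      rw [← Real.exp_nat_mul]
      congr 1
      push_cast
      ring
    have g3 : (2 * (l α : ℝ) + a - 2) = 2 * c := by
      rw [hc]; ring
    have g4 : φ s = Real.exp (c * s 0) * G α (ee s) := rfl
    have g5 : pd 0 φ s = _ := ph_pd_zero a (l α) (hG α) s
    have g6 : ∀ r : Fin k, pd r.succ φ s = _ := fun r => ph_pd_succ a (l α) (hG α) s r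
    rw [← hc] at g5
    simp only [← hc] at g6
    unfold eW F13
    rw [g5]
    simp only [g6, g4, mul_pow]
    rw [g1, g2, g3, ee_zero, ← Finset.mul_sum]
    have g7 : ∑ r : Fin k, pd r.succ (G α) (ee s) ^ 2 =
        ∑ r : Fin k, pd r.succ (G α) (ee s) * pd r.succ (G α) (ee s) := by
      apply Finset.sum_congr rfl
      intro r _
      ring
    rw [g7]
    ring
  have hfin : (∫ s, eW φ s) + c ^ 2 * (∫ s, φ s ^ 2) - (c - l α) *
      (∫ s, 2 * (φ s * pd 0 φ s)) = (∫ s : Fin (k + 1) → ℝ,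
      Real.exp (((l α + l α : ℕ) + a) * s 0) * F13 l G α α (ee s)) +
        ((l α : ℝ) * (2 * l α + a - 2)) * ∫ s : Fin (k + 1) → ℝ, (Real.exp ((2 * c) * s 0) *
          (G α (ee s) * G α (ee s))) := by
    have i12 : Integrable (fun s => eW φ s + c ^ 2 * φ s ^ 2) := i1.add (i2.const_mul _)
    rw [← integral_const_mul, ← integral_const_mul, ← integral_const_mul, ← integral_add i4
      (i5.const_mul _), ← integral_add i1 (i2.const_mul _),
      ← integral_sub i12 (i3.const_mul _)]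
    apply integral_congr_ae
    exact Filter.Eventually.of_forall hpt
  rw [hz, mul_zero, sub_zero] at hfin
  exact hfin.symm

end Pool.Agent.L7h76.RA
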