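import Mathlib
import Pool.Agent.L7h98.RA.Stm
import Pool.Agent.L7h76.RA.EnerB

/-!
Approximation of `C¹` functions with compact support by polynomials together with the first
derivatives (part `S_WEI` of the project RA).
-/

set_option autoImplicit false

open MeasureTheory Set Filter Topology
open scoped ENNReal Convolution

namespace Pool.Agent.L7h76.RA

open LTd (pd)
open Pool.Agent.L7h98.RA

/-- Stone–Weierstrass for polynomials of several variables -/
lemma sw {d : ℕ} {f : (Fin d → ℝ) → ℝ} (hf : Continuous f) {K : Set (Fin d → ℝ)}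
    (hK : IsCompact K) {ε : ℝ} (hε : 0 < ε) :
    ∃ q : MvPolynomial (Fin d) ℝ, ∀ z ∈ K, |MvPolynomial.eval z q - f z| < ε := by
  let Φ : MvPolynomial (Fin d) ℝ →ₐ[ℝ] C(Fin d → ℝ, ℝ) :=
    MvPolynomial.aeval fun i => ⟨fun z => z i, continuous_apply i⟩
  have hΦ : ∀ p z, Φ p z = MvPolynomial.eval z p := by
    intro p z
    induction p using MvPolynomial.induction_on with
    | C a => simp [Φ]
    | add p q hp hq => rw [map_add, ContinuousMap.add_apply, hp, hq, map_add]
    | mul_X p i hp => rw [map_mul, ContinuousMap.mul_apply, hp, map_mul]; simp [Φ]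
  have hsep : (Φ.range).SeparatesPoints := by
    intro x y hxy
    obtain ⟨i, hi⟩ := Function.ne_iff.1 hxy
    refine ⟨fun z => z i, ⟨Φ (MvPolynomial.X i), ⟨MvPolynomial.X i, rfl⟩, ?_⟩, hi⟩
    funext z
    show Φ (MvPolynomial.X i) z = z i
    rw [hΦ, MvPolynomial.eval_X]
  obtain ⟨g, hg, h⟩ :=
    ContinuousMap.exists_mem_subalgebra_near_continuous_of_isCompact_of_separatesPoints hsep
      ⟨f, hf⟩ hK hε
  obtain ⟨q, rfl⟩ := hg
  refine ⟨q, fun z hz => ?_⟩
  have := h z hz
  rwa [AlgHom.toRingHom_eq_coe, RingHom.coe_coe, hΦ, Real.norm_eq_abs] at this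

lemma cc_coord {d : ℕ} {w : (Fin d → ℝ) → ℝ} (hw : Cc1 w) (i : Fin d) :
    Cc1 fun y => y i * w y :=
  ⟨(contDiff_apply ℝ ℝ i).mul hw.smooth, hw.supp.mul_left⟩

lemma pd_coord {d : ℕ} {w : (Fin d → ℝ) → ℝ} (hw : Cc1 w) (i j : Fin d) (y : Fin d → ℝ) :
    pd j (fun y => y i * w y) y = (if i = j then 1 else 0) * w y + y i * pd j w y := by
  have h1 : HasFDerivAt (fun y : Fin d → ℝ => y i)
      (ContinuousLinearMap.proj i : (Fin d → ℝ) →L[ℝ] ℝ) y :=
    (ContinuousLinearMap.proj (R := ℝ) (φ := fun _ : Fin d => ℝ) i).hasFDerivAt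
  have h2 : HasFDerivAt w (fderiv ℝ w y) y :=
    (hw.smooth.differentiable one_ne_zero _).hasFDerivAt
  have h3 : pd j (fun y => y i * w y) y = fderiv ℝ (fun y => y i * w y) y (Pi.single j 1) := rfl
  have h4 : fderiv ℝ (fun y => y i * w y) y = _ := (h1.mul h2).fderiv
  rw [h3, h4, _root_.add_apply, _root_.smul_apply, _root_.smul_apply]
  simp only [smul_eq_mul, ContinuousLinearMap.proj_apply, Pi.single_apply]
  unfold pd
  ring

lemma cont_pd {d : ℕ} {w : (Fin d → ℝ) → ℝ} (hw : Cc1 w) (j : Fin d) : Continuous (pd j w) :=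
  (hw.smooth.continuous_fderiv one_ne_zero).clm_apply continuous_const

lemma supp_pd {d : ℕ} {w : (Fin d → ℝ) → ℝ} (hw : Cc1 w) (j : Fin d) :
    HasCompactSupport (pd j w) := hw.supp.fderiv_apply ℝ _

lemma int_pol {d : ℕ} (q : MvPolynomial (Fin d) ℝ) {f : (Fin d → ℝ) → ℝ} (hf : Continuous f)
    (hs : HasCompactSupport f) (z : Fin d → ℝ) :
    Integrable fun y => MvPolynomial.eval (z - y) q * f y := by
  have h1 : Continuous fun y : Fin d → ℝ => MvPolynomial.eval (z - y) q :=
    (MvPolynomial.continuous_eval q).comp (continuous_const.sub continuous_id)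
  exact (h1.mul hf).integrable_of_hasCompactSupport hs.mul_left

/-- the convolution with a polynomial is a polynomial -/
lemma polconv {d : ℕ} (q : MvPolynomial (Fin d) ℝ) : ∀ w : (Fin d → ℝ) → ℝ, Cc1 w →
    ∃ P : MvPolynomial (Fin d) ℝ, ∀ z,
      MvPolynomial.eval z P = ∫ y, MvPolynomial.eval (z - y) q * w y ∧
      ∀ j, MvPolynomial.eval z (MvPolynomial.pderiv j P) =
        ∫ y, MvPolynomial.eval (z - y) q * pd j w y := by
  induction q using MvPolynomial.induction_on with
  | C a =>
    intro w hw
    refine ⟨MvPolynomial.C (a * ∫ y, w y), fun z => ⟨?_, fun j => ?_⟩⟩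
    · simp only [MvPolynomial.eval_C]
      rw [integral_const_mul]
    · simp only [MvPolynomial.pderiv_C, MvPolynomial.eval_C, map_zero]
      rw [integral_const_mul, int_pd_zero hw, mul_zero]
  | add p q hp hq =>
    intro w hw
    obtain ⟨P, hP⟩ := hp w hw
    obtain ⟨Q, hQ⟩ := hq w hw
    refine ⟨P + Q, fun z => ⟨?_, fun j => ?_⟩⟩
    · rw [map_add, (hP z).1, (hQ z).1, ← integral_add
        (int_pol p hw.smooth.continuous hw.supp z) (int_pol q hw.smooth.continuous hw.supp z)]
      congr 1
      funext y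
      rw [map_add]; ring
    · rw [map_add, map_add, (hP z).2, (hQ z).2, ← integral_add
        (int_pol p (cont_pd hw j) (supp_pd hw j) z) (int_pol q (cont_pd hw j) (supp_pd hw j) z)]
      congr 1
      funext y
      rw [map_add]; ring
  | mul_X p i hp =>
    intro w hw
    obtain ⟨P, hP⟩ := hp w hw
    obtain ⟨Q, hQ⟩ := hp (fun y => y i * w y) (cc_coord hw i)
    refine ⟨P * MvPolynomial.X i - Q, fun z => ⟨?_, fun j => ?_⟩⟩
    · rw [map_sub, map_mul, MvPolynomial.eval_X, (hP z).1, (hQ z).1, ← integral_mul_const,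
        ← integral_sub ((int_pol p hw.smooth.continuous hw.supp z).mul_const _)
        (int_pol p (cc_coord hw i).smooth.continuous (cc_coord hw i).supp z)]
      congr 1
      funext y
      rw [map_mul, MvPolynomial.eval_X, Pi.sub_apply]
      ring
    · rw [map_sub, MvPolynomial.pderiv_mul, MvPolynomial.pderiv_X, map_sub, map_add, map_mul,
        map_mul, MvPolynomial.eval_X, (hP z).1, (hP z).2, (hQ z).2]
      have h1 : MvPolynomial.eval z (Pi.single (M := fun _ => MvPolynomial (Fin d) ℝ) j 1 i) =
          if i = j then (1 : ℝ) else 0 := by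
        rw [Pi.single_apply]
        split_ifs <;> simp
      rw [h1, ← integral_mul_const, ← integral_mul_const,
        ← integral_add ((int_pol p (cont_pd hw j) (supp_pd hw j) z).mul_const _)
          ((int_pol p hw.smooth.continuous hw.supp z).mul_const _)]
      have i1 : Integrable fun y => MvPolynomial.eval (z - y) p * pd j w y * z i +
          MvPolynomial.eval (z - y) p * w y * (if i = j then (1 : ℝ) else 0) :=
        ((int_pol p (cont_pd hw j) (supp_pd hw j) z).mul_const _).add
          ((int_pol p hw.smooth.continuous hw.supp z).mul_const _)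
      rw [← integral_sub i1 (int_pol p (cont_pd (cc_coord hw i) j) (supp_pd (cc_coord hw i) j) z)]
      congr 1
      funext y
      rw [pd_coord hw, map_mul, MvPolynomial.eval_X, Pi.sub_apply]
      ring

theorem s_WEI : S_WEI := by
  intro d w hw R ε hε
  -- the family of functions
  let F : Option (Fin d) → (Fin d → ℝ) → ℝ := fun o => match o with
    | none => w
    | some j => pd j w
  have hFc : ∀ o, Continuous (F o) := by
    intro o
    cases o with
    | none => exact hw.smooth.continuous
    | some j => exact cont_pd hw j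
  have hFs : ∀ o, HasCompactSupport (F o) := by
    intro o
    cases o with
    | none => exact hw.supp
    | some j => exact supp_pd hw j
  have hunif : ∀ o, ∃ δ : ℝ, 0 < δ ∧ ∀ x y, dist x y < δ → dist (F o x) (F o y) < ε / 2 := by
    intro o
    have h1 : UniformContinuous (F o) := (hFs o).uniformContinuous_of_continuous (hFc o)
    obtain ⟨δ, hδ, h2⟩ := Metric.uniformContinuous_iff.1 h1 (ε / 2) (by positivity)
    exact ⟨δ, hδ, fun x y h => h2 h⟩
  choose δ hδ hδF using hunif
  obtain ⟨δ0, hδ0, hδ0'⟩ : ∃ δ0 : ℝ, 0 < δ0 ∧ ∀ o, δ0 ≤ δ o := by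
    obtain ⟨o, ho⟩ := Finite.exists_min δ
    exact ⟨δ o, hδ o, ho⟩
  choose R' hR'0 hR' using fun o => far_of_supp (hFs o)
  set L : ℝ := ∑ o, R' o with hL
  have hRL : ∀ o, R' o ≤ L := fun o =>
    Finset.single_le_sum (f := R') (fun o _ => (hR'0 o).le) (Finset.mem_univ o)
  set T : ℝ := ∑ o, ∫ y, |F o y| with hT
  have hT1 : ∀ o, ∫ y, |F o y| ≤ T := fun o =>
    Finset.single_le_sum (f := fun o => ∫ y, |F o y|)
      (fun o _ => integral_nonneg fun y => abs_nonneg _) (Finset.mem_univ o)
  have hT0 : 0 ≤ T := Finset.sum_nonneg fun o _ => integral_nonneg fun y => abs_nonneg _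
  -- the bump function
  let φ : ContDiffBump (0 : Fin d → ℝ) := ⟨δ0 / 2, δ0, by positivity, by linarith⟩
  have hφc : Continuous (φ.normed volume) := φ.continuous_normed
  obtain ⟨q, hq⟩ := sw hφc (isCompact_closedBall (0 : Fin d → ℝ) (|R| + L))
    (ε := ε / (2 * (T + 1))) (by positivity)
  obtain ⟨P, hP⟩ := polconv q w hw
  refine ⟨P, ?_⟩
  -- the estimate
  have hest : ∀ o, ∀ z : Fin d → ℝ, (∀ j, |z j| ≤ R) →
      |(∫ y, MvPolynomial.eval (z - y) q * F o y) - F o z| ≤ ε := by
    intro o z hz
    have hzn : ‖z‖ ≤ |R| := by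
      rw [pi_norm_le_iff_of_nonneg (abs_nonneg R)]
      exact fun j => (hz j).trans (le_abs_self R)
    have h1 : |(∫ y, φ.normed volume (z - y) * F o y) - F o z| ≤ ε / 2 := by
      have h2 := φ.dist_normed_convolution_le (μ := (volume : Measure (Fin d → ℝ)))
        (g := F o) (x₀ := z) (ε := ε / 2) (hFc o).aestronglyMeasurable (fun x hx => by
          apply le_of_lt
          apply hδF o
          exact lt_of_lt_of_le (Metric.mem_ball.1 hx) (hδ0' o))
      rw [Real.dist_eq, convolution_lsmul_swap] at h2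
      simpa only [smul_eq_mul] using h2
    have h3 : |(∫ y, MvPolynomial.eval (z - y) q * F o y) -
        ∫ y, φ.normed volume (z - y) * F o y| ≤ ε / 2 := by
      have i1 := int_pol q (hFc o) (hFs o) z
      have i2 : Integrable fun y => φ.normed volume (z - y) * F o y :=
        ((hφc.comp (continuous_const.sub continuous_id)).mul
          (hFc o)).integrable_of_hasCompactSupport (hFs o).mul_left
      have i3 : Integrable fun y => |F o y| :=
        ((hFc o).integrable_of_hasCompactSupport (hFs o)).abs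
      rw [← integral_sub i1 i2]
      have h4 : ∀ y, ‖MvPolynomial.eval (z - y) q * F o y - φ.normed volume (z - y) * F o y‖ ≤
          ε / (2 * (T + 1)) * |F o y| := by
        intro y
        rw [← sub_mul, norm_mul, Real.norm_eq_abs, Real.norm_eq_abs]
        by_cases hy : R' o < ‖y‖
        · rw [hR' o y hy, abs_zero, mul_zero, mul_zero]
        · apply mul_le_mul_of_nonneg_right _ (abs_nonneg _)
          apply le_of_lt
          apply hq
          rw [mem_closedBall_zero_iff]
          refine (norm_sub_le _ _).trans (add_le_add hzn ?_)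
          exact (not_lt.1 hy).trans (hRL o)
      have h5 := norm_integral_le_of_norm_le (i3.const_mul (ε / (2 * (T + 1))))
        (Filter.Eventually.of_forall h4)
      rw [Real.norm_eq_abs, integral_const_mul] at h5
      refine h5.trans ?_
      have h6 : ε / (2 * (T + 1)) * ∫ y, |F o y| ≤ ε / (2 * (T + 1)) * (T + 1) :=
        mul_le_mul_of_nonneg_left ((hT1 o).trans (by linarith)) (by positivity)
      refine h6.trans (le_of_eq ?_)
      field_simp
    have h7 : (∫ y, MvPolynomial.eval (z - y) q * F o y) - F o z =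
        ((∫ y, MvPolynomial.eval (z - y) q * F o y) - ∫ y, φ.normed volume (z - y) * F o y) +
        ((∫ y, φ.normed volume (z - y) * F o y) - F o z) := by ring
    rw [h7]
    refine (abs_add_le _ _).trans ?_
    linarith
  intro z hz
  refine ⟨?_, fun j => ?_⟩
  · rw [(hP z).1]
    exact hest none z hz
  · rw [(hP z).2]
    exact hest (some j) z hz

end Pool.Agent.L7h76.RA
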