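import Mathlib
import Pool.Agent.L7h98.RA.Stm
import Pool.Agent.L7h76.RA.Cut
import Pool.Agent.L7h76.RA.Wei

/-!
Density of the sums of profiles times spherical harmonics (part `S_DENS` of the project RA), from
`S_BAS`.
-/

set_option autoImplicit false

open MeasureTheory Set Filter Topology
open scoped ENNReal

namespace Pool.Agent.L7h76.RA

open LTd (pd)
open Pool.Agent.L7h98.RA Pool.Agent.R117.RL Pool.Agent.N537.RS Pool.Agent.N537.RS.HS

variable {a k : ℕ}

/-! ### polynomials as functions -/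

lemma eval_cd {d : ℕ} (P : MvPolynomial (Fin d) ℝ) :
    ContDiff ℝ 1 fun z : Fin d → ℝ => MvPolynomial.eval z P := by
  induction P using MvPolynomial.induction_on with
  | C a => simp only [MvPolynomial.eval_C]; exact contDiff_const
  | add p q hp hq => simp only [map_add]; exact hp.add hq
  | mul_X p i hp =>
    simp only [map_mul, MvPolynomial.eval_X]
    exact hp.mul (contDiff_apply ℝ ℝ i)

lemma pd_eval {d : ℕ} (P : MvPolynomial (Fin d) ℝ) (j : Fin d) (z : Fin d → ℝ) :
    pd j (fun z => MvPolynomial.eval z P) z = MvPolynomial.eval z (MvPolynomial.pderiv j P) := by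
  induction P using MvPolynomial.induction_on with
  | C a =>
    simp only [MvPolynomial.eval_C, MvPolynomial.pderiv_C, map_zero]
    simp [pd]
  | add p q hp hq =>
    have h1 : HasFDerivAt (fun z => MvPolynomial.eval z p)
        (fderiv ℝ (fun z => MvPolynomial.eval z p) z) z :=
      ((eval_cd p).differentiable one_ne_zero _).hasFDerivAt
    have h2 : HasFDerivAt (fun z => MvPolynomial.eval z q)
        (fderiv ℝ (fun z => MvPolynomial.eval z q) z) z :=
      ((eval_cd q).differentiable one_ne_zero _).hasFDerivAt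
    have h4 : fderiv ℝ (fun z => MvPolynomial.eval z (p + q)) z =
        fderiv ℝ (fun z => MvPolynomial.eval z p) z +
          fderiv ℝ (fun z => MvPolynomial.eval z q) z :=
      ((h1.add h2).congr_of_eventuallyEq
        (Filter.Eventually.of_forall fun z => map_add _ _ _)).fderiv
    have h3 : pd j (fun z => MvPolynomial.eval z (p + q)) z =
      fderiv ℝ (fun z => MvPolynomial.eval z (p + q)) z (Pi.single j 1) := rfl
    rw [h3, h4, _root_.add_apply, map_add, map_add, ← hp, ← hq]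
    rfl
  | mul_X p i hp =>
    have h1 : HasFDerivAt (fun z => MvPolynomial.eval z p)
        (fderiv ℝ (fun z => MvPolynomial.eval z p) z) z :=
      ((eval_cd p).differentiable one_ne_zero _).hasFDerivAt
    have h2 : HasFDerivAt (fun y : Fin d → ℝ => y i)
        (ContinuousLinearMap.proj i : (Fin d → ℝ) →L[ℝ] ℝ) z :=
      (ContinuousLinearMap.proj (R := ℝ) (φ := fun _ : Fin d => ℝ) i).hasFDerivAt
    have h4 : fderiv ℝ (fun z => MvPolynomial.eval z (p * MvPolynomial.X i)) z =
        MvPolynomial.eval z p • (ContinuousLinearMap.proj i : (Fin d → ℝ) →L[ℝ] ℝ) +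
          z i • fderiv ℝ (fun z => MvPolynomial.eval z p) z :=
      ((h1.mul h2).congr_of_eventuallyEq
        (Filter.Eventually.of_forall fun z => by
          show MvPolynomial.eval z (p * MvPolynomial.X i) = MvPolynomial.eval z p * z i
          rw [map_mul, MvPolynomial.eval_X])).fderiv
    have h3 : pd j (fun z => MvPolynomial.eval z (p * MvPolynomial.X i)) z =
      fderiv ℝ (fun z => MvPolynomial.eval z (p * MvPolynomial.X i)) z (Pi.single j 1) := rfl
    rw [h3, h4, _root_.add_apply, _root_.smul_apply, _root_.smul_apply, MvPolynomial.pderiv_mul,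
      MvPolynomial.pderiv_X, map_add, map_mul, map_mul, ← hp, MvPolynomial.eval_X]
    have h5 : MvPolynomial.eval z (Pi.single (M := fun _ => MvPolynomial (Fin d) ℝ) j 1 i) =
        (Pi.single j (1 : ℝ) : Fin d → ℝ) i := by
      rw [Pi.single_apply, Pi.single_apply]
      split_ifs <;> simp
    rw [h5]
    simp only [smul_eq_mul, ContinuousLinearMap.proj_apply]
    unfold pd
    ring

/-- polynomials in the form of profiles times harmonics -/
lemma pol_repr {B L : ℕ} {Y : Fin B → MvPolynomial (Fin a) ℝ}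
    (hB : ∀ p : MvPolynomial (Fin a) ℝ, p.totalDegree ≤ L → ∃ c : Fin B → ℕ → ℝ,
      p = ∑ α, ∑ i ∈ Finset.range (L + 1), c α i • (RR a ^ i * Y α))
    (P : MvPolynomial (Fin (a + k)) ℝ) (hP : P.totalDegree ≤ L) :
    ∃ g : Fin B → (Fin (k + 1) → ℝ) → ℝ, (∀ α, ContDiff ℝ 1 (g α)) ∧
      ∀ z : Fin (a + k) → ℝ, MvPolynomial.eval z P = ∑ α, g α (QQ z) * evl (Y α) (xx z) := by
  -- the polynomials in `x`
  let pm : (Fin (a + k) →₀ ℕ) → MvPolynomial (Fin a) ℝ := fun m =>
    ∏ i : Fin a, MvPolynomial.X i ^ m (Fin.castAdd k i)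
  have hpm : ∀ m ∈ P.support, (pm m).totalDegree ≤ L := by
    intro m hm
    have h1 : (m.sum fun _ e => e) ≤ L := (MvPolynomial.le_totalDegree hm).trans hP
    have h2 : (m.sum fun _ e => e) = ∑ i, m i := Finsupp.sum_fintype _ _ fun _ => rfl
    rw [h2, Fin.sum_univ_add] at h1
    refine (MvPolynomial.totalDegree_finsetProd _ _).trans ?_
    have h3 : ∀ i : Fin a, ((MvPolynomial.X i : MvPolynomial (Fin a) ℝ) ^
        m (Fin.castAdd k i)).totalDegree ≤ m (Fin.castAdd k i) := by
      intro i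
      refine (MvPolynomial.totalDegree_pow _ _).trans ?_
      rw [MvPolynomial.totalDegree_X, mul_one]
    refine (Finset.sum_le_sum fun i _ => h3 i).trans ?_
    omega
  have hc : ∀ m, ∃ c : Fin B → ℕ → ℝ, m ∈ P.support →
      pm m = ∑ α, ∑ i ∈ Finset.range (L + 1), c α i • (RR a ^ i * Y α) := by
    intro m
    by_cases hm : m ∈ P.support
    · obtain ⟨c, hc⟩ := hB _ (hpm m hm)
      exact ⟨c, fun _ => hc⟩
    · exact ⟨fun _ _ => 0, fun h => absurd h hm⟩
  choose c hc using hc
  refine ⟨fun α s => ∑ m ∈ P.support, P.coeff m * ((∑ i ∈ Finset.range (L + 1),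
    c m α i * s 0 ^ i) * ∏ r : Fin k, s r.succ ^ m (Fin.natAdd a r)), ?_, ?_⟩
  · intro α
    apply ContDiff.sum
    intro m _
    apply contDiff_const.mul
    apply ContDiff.mul
    · apply ContDiff.sum
      intro i _
      exact contDiff_const.mul ((contDiff_apply ℝ ℝ (0 : Fin (k + 1))).pow i)
    · apply contDiff_prod
      intro r _
      exact (contDiff_apply ℝ ℝ r.succ).pow _
  · intro z
    rw [MvPolynomial.eval_eq']
    simp only [Finset.sum_mul]
    rw [Finset.sum_comm]
    apply Finset.sum_congr rfl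
    intro m hm
    rw [Fin.prod_univ_add]
    have h1 : ∏ i : Fin a, z (Fin.castAdd k i) ^ m (Fin.castAdd k i) = evl (pm m) (xx z) := by
      simp only [pm, evl, map_prod, map_pow, MvPolynomial.eval_X]
      rfl
    have hQ : ‖(xx z : E a)‖ ^ 2 = (QQ z : Fin (k + 1) → ℝ) 0 := by
      rw [EuclideanSpace.norm_sq_eq]
      have h2 : (QQ z : Fin (k + 1) → ℝ) 0 = ∑ i : Fin a, z (Fin.castAdd k i) ^ 2 := rfl
      rw [h2]
      apply Finset.sum_congr rfl
      intro i _
      rw [Real.norm_eq_abs, sq_abs]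
      rfl
    have hy : ∀ r : Fin k, (QQ z : Fin (k + 1) → ℝ) r.succ = z (Fin.natAdd a r) := fun r => rfl
    rw [h1, hc m hm, evl_sum]
    simp only [evl_sum, evl_smul, evl_mul, evl_pow, evl_RR, hQ, hy]
    rw [Finset.sum_mul, Finset.mul_sum]
    apply Finset.sum_congr rfl
    intro α _
    simp only [Finset.sum_mul, Finset.mul_sum]
    apply Finset.sum_congr rfl
    intro i _
    ring

/-! ### algebra of `C¹` functions with compact support -/

lemma int_sq_sub {d : ℕ} {f g : (Fin d → ℝ) → ℝ} (hf : Cc1 f) (hg : Cc1 g) :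
    Integrable fun z => (f z - g z) ^ 2 := by
  have h1 : Cc1 fun z => f z - g z := ⟨hf.smooth.sub hg.smooth, hf.supp.sub hg.supp⟩
  have h2 : (fun z => (f z - g z) ^ 2) = fun z => (f z - g z) * (f z - g z) := by
    funext z; ring
  rw [h2]
  exact (h1.smooth.continuous.mul h1.smooth.continuous).integrable_of_hasCompactSupport
    h1.supp.mul_right

lemma int_gr_sub {d : ℕ} {f g : (Fin d → ℝ) → ℝ} (hf : Cc1 f) (hg : Cc1 g) :
    Integrable fun z => ∑ j, (pd j f z - pd j g z) ^ 2 := by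
  apply integrable_finsetSum
  intro j _
  have h2 : (fun z => (pd j f z - pd j g z) ^ 2) =
      fun z => (pd j f z - pd j g z) * (pd j f z - pd j g z) := by
    funext z; ring
  rw [h2]
  have h3 : Continuous fun z => pd j f z - pd j g z := (cont_pd hf j).sub (cont_pd hg j)
  have h4 : HasCompactSupport fun z => pd j f z - pd j g z := (supp_pd hf j).sub (supp_pd hg j)
  exact (h3.mul h3).integrable_of_hasCompactSupport h4.mul_right

lemma tri_sq {d : ℕ} {f g h : (Fin d → ℝ) → ℝ} (hf : Cc1 f) (hg : Cc1 g) (hh : Cc1 h) :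
    ∫ z, (f z - h z) ^ 2 ≤ 2 * (∫ z, (f z - g z) ^ 2) + 2 * ∫ z, (g z - h z) ^ 2 := by
  rw [← integral_const_mul, ← integral_const_mul, ← integral_add ((int_sq_sub hf hg).const_mul 2)
    ((int_sq_sub hg hh).const_mul 2)]
  apply integral_mono (int_sq_sub hf hh)
    (((int_sq_sub hf hg).const_mul 2).add ((int_sq_sub hg hh).const_mul 2))
  intro z
  show (f z - h z) ^ 2 ≤ 2 * (f z - g z) ^ 2 + 2 * (g z - h z) ^ 2
  nlinarith [sq_nonneg ((f z - g z) - (g z - h z))]

lemma tri_gr {d : ℕ} {f g h : (Fin d → ℝ) → ℝ} (hf : Cc1 f) (hg : Cc1 g) (hh : Cc1 h) :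
    ∫ z, ∑ j, (pd j f z - pd j h z) ^ 2 ≤ 2 * (∫ z, ∑ j, (pd j f z - pd j g z) ^ 2) +
      2 * ∫ z, ∑ j, (pd j g z - pd j h z) ^ 2 := by
  rw [← integral_const_mul, ← integral_const_mul, ← integral_add ((int_gr_sub hf hg).const_mul 2)
    ((int_gr_sub hg hh).const_mul 2)]
  apply integral_mono (int_gr_sub hf hh)
    (((int_gr_sub hf hg).const_mul 2).add ((int_gr_sub hg hh).const_mul 2))
  intro z
  show ∑ j, (pd j f z - pd j h z) ^ 2 ≤ 2 * (∑ j, (pd j f z - pd j g z) ^ 2) +
    2 * ∑ j, (pd j g z - pd j h z) ^ 2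
  rw [Finset.mul_sum, Finset.mul_sum, ← Finset.sum_add_distrib]
  apply Finset.sum_le_sum
  intro j _
  nlinarith [sq_nonneg ((pd j f z - pd j g z) - (pd j g z - pd j h z))]

/-- an integral of a function bounded by a constant on a ball -/
lemma int_ball_le {d : ℕ} {f : (Fin d → ℝ) → ℝ} {R c : ℝ} (h0 : ∀ z, 0 ≤ f z)
    (h1 : ∀ z, R < ‖z‖ → f z = 0) (h2 : ∀ z, ‖z‖ ≤ R → f z ≤ c) :
    ∫ z, f z ≤ c * (volume (Metric.closedBall (0 : Fin d → ℝ) R)).toReal := by
  have hSm : MeasurableSet (Metric.closedBall (0 : Fin d → ℝ) R) :=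
    Metric.isClosed_closedBall.measurableSet
  have hSf : volume (Metric.closedBall (0 : Fin d → ℝ) R) ≠ ⊤ :=
    (isCompact_closedBall _ _).measure_lt_top.ne
  have h3 : ∫ z, f z ≤ ∫ z, (Metric.closedBall (0 : Fin d → ℝ) R).indicator (fun _ => c) z := by
    apply integral_mono_of_nonneg (Filter.Eventually.of_forall h0)
    · rw [integrable_indicator_iff hSm]
      exact integrableOn_const hSf
    · refine Filter.Eventually.of_forall fun z => ?_
      by_cases hz : z ∈ Metric.closedBall (0 : Fin d → ℝ) R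
      · simp only [indicator_of_mem hz]
        exact h2 z (by simpa using hz)
      · simp only [indicator_of_notMem hz]
        rw [h1 z (by simpa using hz)]
  refine h3.trans (le_of_eq ?_)
  rw [integral_indicator_const _ hSm, Measure.real, smul_eq_mul, mul_comm]

/-! ### the cut-off function in the variables `s` -/

lemma exists_psi {δ M : ℝ} (hδ : 0 < δ) (hM : 0 < M) : ∃ ψ : (Fin (k + 1) → ℝ) → ℝ, Prf ψ ∧
    ∀ s, δ < s 0 → ‖s‖ ≤ M → ψ s = 1 := by
  let φ : ContDiffBump (0 : Fin (k + 1) → ℝ) := ⟨M, M + 1, hM, by linarith⟩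
  refine ⟨fun s => chi (2 * s 0 / δ) * φ s, ⟨⟨?_, ?_⟩, ⟨δ / 2, by positivity, ?_⟩⟩, ?_⟩
  · apply ContDiff.mul
    · apply chi_cd.comp
      exact (contDiff_const.mul (contDiff_apply ℝ ℝ (0 : Fin (k + 1)))).div_const _
    · exact φ.contDiff
  · exact φ.hasCompactSupport.mul_left
  · intro s hs
    show chi (2 * s 0 / δ) * φ s = 0
    rw [chi_low, zero_mul]
    rw [div_le_one hδ]
    linarith
  · intro s h1 h2
    show chi (2 * s 0 / δ) * φ s = 1
    rw [chi_high, φ.one_of_mem_closedBall, one_mul]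
    · rw [mem_closedBall_zero_iff]
      exact h2
    · rw [le_div_iff₀ hδ]
      linarith

theorem s_DENS (hbas : S_BAS) : S_DENS := by
  intro a k N ha w hw ε hε
  obtain ⟨w', hw', ⟨δ, hδ, hlow⟩, hclose⟩ := s_CUT a k N ha w hw (ε / 4) (by positivity)
  choose R hR0 hR using fun n => far_of_supp (hw' n).supp
  set R1 : ℝ := 1 + ∑ n, R n with hR1
  have hR1p : 1 ≤ R1 := by
    have : 0 ≤ ∑ n, R n := Finset.sum_nonneg fun n _ => (hR0 n).le
    linarith
  have hRR1 : ∀ n, R n ≤ R1 := fun n => by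
    have := Finset.single_le_sum (f := R) (fun n _ => (hR0 n).le) (Finset.mem_univ n)
    linarith
  set M : ℝ := (a + 1) * R1 ^ 2 with hM
  have hMp : 0 < M := by positivity
  obtain ⟨ψ, hψ, hψ1⟩ := exists_psi (k := k) hδ hMp
  set Ψ : (Fin (a + k) → ℝ) → ℝ := fun z => ψ (QQ z) with hΨ
  -- `Ψ` as a function `ww`
  have hΨc : Cc1 Ψ := by
    have h1 : Cc1 (ww (a := a) (B := 1) (fun _ => 1) fun _ => ψ) :=
      ww_cc (fun _ => 1) fun _ => hψ.cc
    have h2 : (ww (a := a) (B := 1) (fun _ => 1) fun _ => ψ) = Ψ := by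
      funext z
      simp [ww, evl, hΨ]
    rwa [h2] at h1
  -- on the support of `w'`, `Ψ = 1`
  have hone : ∀ n z, w' n z = 0 ∨ Ψ z = 1 := by
    intro n z
    by_cases h0 : w' n z = 0
    · exact Or.inl h0
    · right
      apply hψ1
      · by_contra hcon
        exact h0 (hlow n z (not_lt.1 hcon))
      · have hz : ‖z‖ ≤ R1 := by
          by_contra hcon
          exact h0 (hR n z (lt_of_le_of_lt (hRR1 n) (not_le.1 hcon)))
        have hzj : ∀ j, |z j| ≤ R1 := fun j => (norm_le_pi_norm z j).trans hz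
        have hR1sq : R1 ≤ R1 ^ 2 := by nlinarith
        rw [pi_norm_le_iff_of_nonneg hMp.le]
        intro j
        refine Fin.cases ?_ (fun r => ?_) j
        · have h2 : (QQ z : Fin (k + 1) → ℝ) 0 = ∑ i : Fin a, z (Fin.castAdd k i) ^ 2 := rfl
          rw [h2, Real.norm_eq_abs, abs_of_nonneg (Finset.sum_nonneg fun i _ => sq_nonneg _)]
          have h3 : ∑ i : Fin a, z (Fin.castAdd k i) ^ 2 ≤ ∑ _i : Fin a, R1 ^ 2 := by
            apply Finset.sum_le_sum
            intro i _
            rw [← sq_abs]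
            exact pow_le_pow_left₀ (abs_nonneg _) (hzj _) 2
          rw [Finset.sum_const, Finset.card_univ, Fintype.card_fin, nsmul_eq_mul] at h3
          rw [hM]
          nlinarith [sq_nonneg R1]
        · have h2 : (QQ z : Fin (k + 1) → ℝ) r.succ = z (Fin.natAdd a r) := rfl
          rw [h2, Real.norm_eq_abs]
          refine (hzj _).trans ?_
          rw [hM]
          have : (0 : ℝ) ≤ a := Nat.cast_nonneg a
          nlinarith [sq_nonneg R1]
  -- the bounds for `Ψ`
  obtain ⟨R2, hR20, hR2⟩ := far_of_supp hΨc.supp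
  choose R3 hR30 hR3 using fun j => far_of_supp (supp_pd hΨc j)
  obtain ⟨C0, hC0⟩ := hΨc.smooth.continuous.bounded_above_of_compact_support hΨc.supp
  choose C1 hC1 using fun j => (cont_pd hΨc j).bounded_above_of_compact_support (supp_pd hΨc j)
  have hC00 : 0 ≤ C0 := (norm_nonneg _).trans (hC0 0)
  have hC10 : ∀ j, 0 ≤ C1 j := fun j => (norm_nonneg _).trans (hC1 j 0)
  set R4 : ℝ := R2 + ∑ j, R3 j with hR4
  set C : ℝ := C0 + ∑ j, C1 j with hC
  have hs3 : 0 ≤ ∑ j, R3 j := Finset.sum_nonneg fun j _ => (hR30 j).le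
  have hsC : 0 ≤ ∑ j, C1 j := Finset.sum_nonneg fun j _ => hC10 j
  have hR4p : 0 ≤ R4 := by linarith
  have hCp : 0 ≤ C := by linarith
  have hf0 : ∀ z, R4 < ‖z‖ → Ψ z = 0 := fun z hz => hR2 z (by linarith)
  have hf1 : ∀ j z, R4 < ‖z‖ → pd j Ψ z = 0 := fun j z hz => by
    apply hR3 j
    have := Finset.single_le_sum (f := R3) (fun j _ => (hR30 j).le) (Finset.mem_univ j)
    linarith
  have hb0 : ∀ z, |Ψ z| ≤ C := fun z => (hC0 z).trans (by linarith)
  have hb1 : ∀ j z, |pd j Ψ z| ≤ C := fun j z => by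
    refine (hC1 j z).trans ?_
    have := Finset.single_le_sum (f := C1) (fun j _ => hC10 j) (Finset.mem_univ j)
    linarith
  set V : ℝ := (volume (Metric.closedBall (0 : Fin (a + k) → ℝ) R4)).toReal with hV
  have hV0 : 0 ≤ V := ENNReal.toReal_nonneg
  set T : ℝ := 4 * (((a : ℝ) + k) * (2 * C) ^ 2 * V + 1) with hT
  have hT0 : 0 < T := by positivity
  set η : ℝ := min 1 (ε / T) with hη
  have hη0 : 0 < η := lt_min one_pos (by positivity)
  have hη1 : η ≤ 1 := min_le_left _ _
  have hη2 : η ≤ ε / T := min_le_right _ _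
  have hηT : ((a : ℝ) + k) * (2 * C * η) ^ 2 * V ≤ ε / 4 := by
    have h1 : η ^ 2 ≤ η := by nlinarith
    have h2 : ((a : ℝ) + k) * (2 * C * η) ^ 2 * V = (((a : ℝ) + k) * (2 * C) ^ 2 * V) * η ^ 2 := by
      ring
    rw [h2]
    have h3 : 0 ≤ ((a : ℝ) + k) * (2 * C) ^ 2 * V := by positivity
    have h4 : (((a : ℝ) + k) * (2 * C) ^ 2 * V) * η ^ 2 ≤ (T / 4) * (ε / T) := by
      apply mul_le_mul _ (h1.trans hη2) (by positivity) (by positivity)
      rw [hT]; linarith
    refine h4.trans (le_of_eq ?_)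
    field_simp
  choose P hP using fun n => s_WEI (a + k) (w' n) (hw' n) R4 η hη0
  -- the representation
  obtain ⟨B, l, Y, hY, hYB⟩ := hbas a ha (∑ n, (P n).totalDegree)
  choose g hg1 hg2 using fun n => pol_repr (k := k) hYB (P n)
    (Finset.single_le_sum (f := fun n => (P n).totalDegree) (fun _ _ => Nat.zero_le _)
      (Finset.mem_univ n))
  have hprf : ∀ n α, Prf fun s => ψ s * g n α s := by
    intro n α
    obtain ⟨d, hd, hd1⟩ := hψ.pos
    exact ⟨⟨hψ.cc.smooth.mul (hg1 n α), hψ.cc.supp.mul_right⟩,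
      ⟨d, hd, fun s hs => by rw [hd1 s hs, zero_mul]⟩⟩
  refine ⟨B, l, Y, fun n α s => ψ s * g n α s, hY, hprf, fun n => ?_⟩
  have hww : ww Y (fun α s => ψ s * g n α s) = fun z : Fin (a + k) → ℝ =>
      Ψ z * MvPolynomial.eval z (P n) := by
    funext z
    rw [hg2 n z, Finset.mul_sum]
    unfold ww
    apply Finset.sum_congr rfl
    intro α _
    show ψ (QQ z) * g n α (QQ z) * evl (Y α) (xx z) = ψ (QQ z) * (g n α (QQ z) * evl (Y α) (xx z))
    ring
  have hwc : Cc1 (ww Y (fun α s => ψ s * g n α s) : (Fin (a + k) → ℝ) → ℝ) :=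
    ww_cc Y fun α => (hprf n α).cc
  -- the difference
  set u : (Fin (a + k) → ℝ) → ℝ := ww Y (fun α s => ψ s * g n α s) with hu
  have hE : Cc1 fun z => Ψ z * (MvPolynomial.eval z (P n) - w' n z) :=
    ⟨hΨc.smooth.mul ((eval_cd (P n)).sub (hw' n).smooth), hΨc.supp.mul_right⟩
  have hdiff : (fun z => Ψ z * (MvPolynomial.eval z (P n) - w' n z)) = fun z => u z - w' n z := by
    funext z
    have h0 : u z = Ψ z * MvPolynomial.eval z (P n) := congrFun hww z
    rw [h0]
    rcases hone n z with h | h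
    · rw [h]; ring
    · rw [h]; ring
  have hpd1 : ∀ j z, pd j u z - pd j (w' n) z = Ψ z * (MvPolynomial.eval z
      (MvPolynomial.pderiv j (P n)) - pd j (w' n) z) +
      (MvPolynomial.eval z (P n) - w' n z) * pd j Ψ z := by
    intro j z
    have h1 : HasFDerivAt u (fderiv ℝ u z) z :=
      (hwc.smooth.differentiable one_ne_zero _).hasFDerivAt
    have h2 : HasFDerivAt (w' n) (fderiv ℝ (w' n) z) z :=
      ((hw' n).smooth.differentiable one_ne_zero _).hasFDerivAt
    have h3 : HasFDerivAt Ψ (fderiv ℝ Ψ z) z :=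
      (hΨc.smooth.differentiable one_ne_zero _).hasFDerivAt
    have h4 : HasFDerivAt (fun z => MvPolynomial.eval z (P n))
        (fderiv ℝ (fun z => MvPolynomial.eval z (P n)) z) z :=
      ((eval_cd (P n)).differentiable one_ne_zero _).hasFDerivAt
    have h5 : HasFDerivAt (fun z => u z - w' n z) _ z := h1.sub h2
    have h6 : HasFDerivAt (fun z => Ψ z * (MvPolynomial.eval z (P n) - w' n z)) _ z :=
      h3.mul (h4.sub h2)
    rw [hdiff] at h6
    have h7 := congrArg (fun q => q (Pi.single j 1)) (h5.unique h6)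
    simp only [_root_.add_apply, _root_.sub_apply, _root_.smul_apply, smul_eq_mul] at h7
    have h8 := pd_eval (P n) j z
    unfold pd at h8 ⊢
    rw [← h8]
    linarith
  have hzj : ∀ z : Fin (a + k) → ℝ, ‖z‖ ≤ R4 → ∀ j, |z j| ≤ R4 := fun z hz j =>
    (norm_le_pi_norm z j).trans hz
  have hak : (1 : ℝ) ≤ (a : ℝ) + k := by
    have h1 : (3 : ℝ) ≤ a := by exact_mod_cast ha
    have h2 : (0 : ℝ) ≤ k := by positivity
    linarith
  have hI0 : ∫ z, (u z - w' n z) ^ 2 ≤ ε / 4 := by
    refine (int_ball_le (R := R4) (c := ((a : ℝ) + k) * (2 * C * η) ^ 2) (fun z => sq_nonneg _)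
      ?_ ?_).trans hηT
    · intro z hz
      have h1 : Ψ z * (MvPolynomial.eval z (P n) - w' n z) = u z - w' n z := congrFun hdiff z
      rw [← h1, hf0 z hz, zero_mul]
      norm_num
    · intro z hz
      have h1 : Ψ z * (MvPolynomial.eval z (P n) - w' n z) = u z - w' n z := congrFun hdiff z
      rw [← h1]
      have h2 : |Ψ z * (MvPolynomial.eval z (P n) - w' n z)| ≤ C * η := by
        rw [abs_mul]
        exact mul_le_mul (hb0 z) (hP n z (hzj z hz)).1 (abs_nonneg _) hCp
      have h3 : (Ψ z * (MvPolynomial.eval z (P n) - w' n z)) ^ 2 ≤ (C * η) ^ 2 := by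
        rw [← sq_abs]
        exact pow_le_pow_left₀ (abs_nonneg _) h2 2
      have h4 : 0 ≤ (C * η) ^ 2 := sq_nonneg _
      have h5 : (2 * C * η) ^ 2 = 4 * (C * η) ^ 2 := by ring
      rw [h5]
      nlinarith
  have hI1 : ∫ z, ∑ j, (pd j u z - pd j (w' n) z) ^ 2 ≤ ε / 4 := by
    refine (int_ball_le (R := R4) (c := ((a : ℝ) + k) * (2 * C * η) ^ 2)
      (fun z => Finset.sum_nonneg fun j _ => sq_nonneg _) ?_ ?_).trans hηT
    · intro z hz
      apply Finset.sum_eq_zero
      intro j _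
      rw [hpd1, hf0 z hz, hf1 j z hz]
      norm_num
    · intro z hz
      have h1 : ∀ j, (pd j u z - pd j (w' n) z) ^ 2 ≤ (2 * C * η) ^ 2 := by
        intro j
        rw [hpd1, ← sq_abs]
        apply pow_le_pow_left₀ (abs_nonneg _)
        refine (abs_add_le _ _).trans ?_
        rw [abs_mul, abs_mul]
        have h2 : |Ψ z| * |MvPolynomial.eval z (MvPolynomial.pderiv j (P n)) - pd j (w' n) z| ≤
            C * η := mul_le_mul (hb0 z) ((hP n z (hzj z hz)).2 j) (abs_nonneg _) hCp
        have h3 : |MvPolynomial.eval z (P n) - w' n z| * |pd j Ψ z| ≤ η * C :=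
          mul_le_mul (hP n z (hzj z hz)).1 (hb1 j z) (abs_nonneg _) hη0.le
        linarith
      refine (Finset.sum_le_sum fun j _ => h1 j).trans ?_
      rw [Finset.sum_const, Finset.card_univ, Fintype.card_fin, nsmul_eq_mul]
      push_cast
      exact le_rfl
  constructor
  · refine (tri_sq hwc (hw' n) (hw n)).trans ?_
    have := (hclose n).1
    linarith
  · refine (tri_gr hwc (hw' n) (hw n)).trans ?_
    have := (hclose n).2
    linarith

end Pool.Agent.L7h76.RA
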